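import Pool.Agent.MP_74fd1e_al.Defs

-- part MP_74fd1e_al.Ord
section

namespace Pool.Agent.MP_74fd1e_al

open Real Finset

/-- the two sequences are ordered in the same way on `0, …, d` -/
def Same (d : ℕ) (t v : ℕ → ℝ) : Prop := ∀ i j, i < j → j ≤ d → 0 < (t j - t i) * (v j - v i)

lemma Same.anti {d : ℕ} {t v : ℕ → ℝ} (h : Same d t v) {σ : Equiv.Perm (Fin (d + 1))}
    (ht : StrictAnti fun k => t (σ k)) : StrictAnti fun k => v (σ k) := by
  intro a b hab
  have e : t (σ b) < t (σ a) := ht hab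
  have hne : (σ a).1 ≠ (σ b).1 := fun h => hab.ne (σ.injective (Fin.ext h))
  show v (σ b) < v (σ a)
  rcases lt_or_gt_of_ne hne with h' | h'
  · have := h _ _ h' (Nat.lt_succ_iff.mp (σ b).2)
    nlinarith
  · have := h _ _ h' (Nat.lt_succ_iff.mp (σ a).2)
    nlinarith

lemma ne_of_anti {d : ℕ} {t : ℕ → ℝ} {σ : Equiv.Perm (Fin (d + 1))}
    (ht : StrictAnti fun k => t (σ k)) (i j : ℕ) (hij : i < j) (hj : j ≤ d) : t j - t i ≠ 0 := by
  intro e
  have := ht.injective (a₁ := σ.symm ⟨j, by omega⟩) (a₂ := σ.symm ⟨i, by omega⟩)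
    (by simpa using sub_eq_zero.mp e)
  have := congrArg Fin.val (σ.symm.injective this)
  simp only at this
  omega

lemma pos_mul_trans {x y z : ℝ} (h1 : 0 < x * y) (h2 : 0 < y * z) : 0 < x * z := by
  have hy : 0 < y * y := mul_self_pos.mpr fun h => by simp [h] at h1
  have : 0 < (x * z) * (y * y) := by nlinarith [mul_pos h1 h2]
  exact (pos_iff_pos_of_mul_pos this).mpr hy

lemma threshold {F : ℕ → ℝ} (hF : Monotone F) (M : ℕ) :
    ∃ m ≤ M + 1, ∀ s ≤ M, F s ≠ 0 → 0 < F s * ((s : ℝ) - m + 1 / 2) := by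
  classical
  by_cases h : ∃ s, 0 < F s
  · refine ⟨min (Nat.find h) (M + 1), min_le_right _ _, fun s hs h0 => ?_⟩
    by_cases hs' : Nat.find h ≤ s
    · have e1 : 0 < F s := (Nat.find_spec h).trans_le (hF hs')
      have e2 : ((min (Nat.find h) (M + 1) : ℕ) : ℝ) ≤ s := by
        exact_mod_cast (min_le_left _ _).trans hs'
      exact mul_pos e1 (by linarith)
    · have e1 : F s < 0 := lt_of_le_of_ne (not_lt.mp (Nat.find_min h (not_le.mp hs'))) h0
      have e2 : (s : ℝ) + 1 ≤ ((min (Nat.find h) (M + 1) : ℕ) : ℝ) := by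
        exact_mod_cast le_min (by omega) (by omega)
      exact mul_pos_of_neg_of_neg e1 (by linarith)
  · refine ⟨M + 1, le_rfl, fun s hs h0 => ?_⟩
    have e1 : F s < 0 := lt_of_le_of_ne (not_lt.mp fun h' => h ⟨s, h'⟩) h0
    have e2 : (s : ℝ) ≤ M := by exact_mod_cast hs
    push_cast
    exact mul_pos_of_neg_of_neg e1 (by linarith)

lemma mul_sin_pos {x δ : ℝ} (hδ : 0 < δ) (hx : x ≠ 0) (h : |x| * δ < 1) : 0 < x * sin (x * δ) := by
  have := pi_gt_three
  rcases lt_or_gt_of_ne hx with h' | h'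
  · rw [abs_of_neg h'] at h
    have := sin_pos_of_pos_of_lt_pi (x := -x * δ) (mul_pos (by linarith) hδ) (by linarith)
    rw [neg_mul, sin_neg] at this
    nlinarith
  · rw [abs_of_pos h'] at h
    exact mul_pos h' (sin_pos_of_pos_of_lt_pi (mul_pos h' hδ) (by linarith))

lemma cos_pos_small {x δ : ℝ} (hδ : 0 < δ) (h : |x| * δ < 1) : 0 < cos (x * δ) := by
  have := pi_gt_three
  have e : |x * δ| < 1 := by rwa [abs_mul, abs_of_pos hδ]
  exact cos_pos_of_mem_Ioo ⟨by linarith [abs_lt.mp e], by linarith [abs_lt.mp e]⟩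

lemma sign_shift {ε : ℝ} (hε : ε = 1 ∨ ε = -1) (φ : ℝ) :
    ∃ φ', ∀ x, cos (x + φ') = ε * cos (x + φ) := by
  rcases hε with rfl | rfl
  · exact ⟨φ, fun x => by simp⟩
  · exact ⟨φ + π, fun x => by rw [← add_assoc, cos_add_pi]; simp⟩

lemma small {d : ℕ} {x : ℝ} (h1 : -(2 * d + 1) < x) (h2 : x < 2 * d + 1) :
    |x| * (1 / (2 * d + 1)) < 1 := by
  have : (0 : ℝ) < 2 * d + 1 := by positivity
  rw [mul_one_div, div_lt_one this]
  exact abs_lt.mpr ⟨h1, h2⟩

lemma half_ne (s m : ℕ) : (s : ℝ) - m + 1 / 2 ≠ 0 := by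
  intro h
  have : (2 * s + 1 : ℝ) = 2 * m := by linarith
  have : 2 * s + 1 = 2 * m := by exact_mod_cast this
  omega

lemma pat1 {d : ℕ} {t : ℕ → ℝ} {ε : ℝ} (hε : ε = 1 ∨ ε = -1) {F : ℕ → ℝ} (hF : Monotone F)
    (h : ∀ i j, i < j → j ≤ d → 0 < (t j - t i) * ε * F (i + j)) :
    ∃ ω φ : ℝ, Same d t fun i => cos (i * ω + φ) := by
  obtain ⟨m, hm, hm'⟩ := threshold hF (2 * d)
  set δ : ℝ := 1 / (2 * d + 1) with hδ
  have hδ0 : 0 < δ := by positivity
  obtain ⟨φ, hφ⟩ := sign_shift (ε := -ε) (by rcases hε with h | h <;> simp [h])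
    ((1 / 2 - m) * δ)
  refine ⟨2 * δ, φ, fun i j hij hj => ?_⟩
  have e := h i j hij hj
  have e1 := pos_mul_trans e (hm' (i + j) (by omega) fun h0 => by simp [h0] at e)
  have hm1 : (m : ℝ) ≤ 2 * d + 1 := by exact_mod_cast hm
  have hi0 : (0 : ℝ) ≤ i := by positivity
  have hm0 : (0 : ℝ) ≤ m := by positivity
  have hij' : (i : ℝ) + 1 ≤ j := by exact_mod_cast hij
  have hj' : (j : ℝ) ≤ d := by exact_mod_cast hj
  have e2 := pos_mul_trans e1 (mul_sin_pos hδ0 (half_ne _ _)
    (small (by push_cast; linarith) (by push_cast; linarith)))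
  have e3 : 0 < sin ((j - i) * δ) := by
    have := mul_sin_pos (x := (j : ℝ) - i) hδ0 (by linarith) (small (by linarith) (by linarith))
    exact (pos_iff_pos_of_mul_pos this).mp (by linarith)
  simp only [hφ]
  rw [← mul_sub, cos_sub_cos,
    show (j * (2 * δ) + (1 / 2 - m) * δ + (i * (2 * δ) + (1 / 2 - m) * δ)) / 2 =
      (((i + j : ℕ) : ℝ) - m + 1 / 2) * δ by push_cast; ring,
    show (j * (2 * δ) + (1 / 2 - m) * δ - (i * (2 * δ) + (1 / 2 - m) * δ)) / 2 =
      (j - i) * δ by ring]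
  nlinarith [mul_pos e2 e3]

lemma neg_one_pow_even {i j : ℕ} (h : Even (i + j)) : (-1 : ℝ) ^ i = (-1) ^ j := by
  rcases Nat.even_or_odd i with hi | hi
  · rw [hi.neg_one_pow, ((Nat.even_add.mp h).mp hi).neg_one_pow]
  · have : Odd j := by
      rw [← Nat.not_even_iff_odd] at hi ⊢
      exact fun hj => hi ((Nat.even_add.mp h).mpr hj)
    rw [hi.neg_one_pow, this.neg_one_pow]

lemma neg_one_pow_odd {i j : ℕ} (h : Odd (i + j)) : (-1 : ℝ) ^ i = -(-1) ^ j := by
  have : Even (i + (j + 1)) := by rw [← add_assoc]; exact h.add_one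
  rw [neg_one_pow_even this, pow_succ]
  ring

lemma pat2 {d : ℕ} {t : ℕ → ℝ} {ε : ℝ} (hε : ε = 1 ∨ ε = -1) {F : ℕ → ℝ} (hF : Monotone F)
    (h : ∀ i j, i < j → j ≤ d → (Even (i + j) → 0 < (t j - t i) * ε * (-1) ^ j) ∧
      (Odd (i + j) → 0 < (t j - t i) * ε * (-1) ^ j * F (i + j))) :
    ∃ ω φ : ℝ, Same d t fun i => cos (i * ω + φ) := by
  obtain ⟨m, hm, hm'⟩ := threshold hF (2 * d)
  set δ : ℝ := 1 / (2 * d + 1) with hδ
  have hδ0 : 0 < δ := by positivity
  obtain ⟨φ, hφ⟩ := sign_shift hε ((1 / 2 - m) * δ - π / 2)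
  refine ⟨2 * δ + π, φ, fun i j hij hj => ?_⟩
  have hv : ∀ i : ℕ, cos (i * (2 * δ + π) + φ) =
      ε * (-1) ^ i * sin (i * (2 * δ) + (1 / 2 - m) * δ) := by
    intro i
    rw [hφ, show i * (2 * δ + π) + ((1 / 2 - m) * δ - π / 2) =
      (i * (2 * δ) + (1 / 2 - m) * δ - π / 2) + i * π by ring, cos_add_nat_mul_pi,
      cos_sub_pi_div_two, mul_assoc]
  have hm1 : (m : ℝ) ≤ 2 * d + 1 := by exact_mod_cast hm
  have hi0 : (0 : ℝ) ≤ i := by positivity
  have hm0 : (0 : ℝ) ≤ m := by positivity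
  have hij' : (i : ℝ) + 1 ≤ j := by exact_mod_cast hij
  have hj' : (j : ℝ) ≤ d := by exact_mod_cast hj
  have s1 : |((i + j : ℕ) : ℝ) - m + 1 / 2| * δ < 1 :=
    small (by push_cast; linarith) (by push_cast; linarith)
  have s2 : |(j : ℝ) - i| * δ < 1 := small (by linarith) (by linarith)
  have a1 : (j * (2 * δ) + (1 / 2 - m) * δ + (i * (2 * δ) + (1 / 2 - m) * δ)) / 2 =
      (((i + j : ℕ) : ℝ) - m + 1 / 2) * δ := by push_cast; ring
  have a2 : (j * (2 * δ) + (1 / 2 - m) * δ - (i * (2 * δ) + (1 / 2 - m) * δ)) / 2 =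
      (j - i) * δ := by ring
  simp only [hv]
  rcases Nat.even_or_odd (i + j) with hp | hp
  · have e := (h i j hij hj).1 hp
    have e3 : 0 < sin ((j - i) * δ) := by
      have := mul_sin_pos (x := (j : ℝ) - i) hδ0 (by linarith) s2
      exact (pos_iff_pos_of_mul_pos this).mp (by linarith)
    rw [neg_one_pow_even hp, ← mul_sub, sin_sub_sin, a1, a2]
    nlinarith [mul_pos e (mul_pos e3 (cos_pos_small hδ0 s1))]
  · have e := (h i j hij hj).2 hp
    have e1 := pos_mul_trans e (hm' (i + j) (by omega) fun h0 => by simp [h0] at e)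
    have e2 := pos_mul_trans e1 (mul_sin_pos hδ0 (half_ne _ _) s1)
    rw [neg_one_pow_odd hp, mul_neg, neg_mul, sub_neg_eq_add, ← mul_add, sin_add_sin, a1, a2]
    nlinarith [mul_pos e2 (cos_pos_small hδ0 s2)]

lemma pat3 {d : ℕ} {t : ℕ → ℝ} {ε : ℝ} {F : ℕ → ℝ} (hF : Monotone F)
    (h : ∀ i j, i < j → j ≤ d → (Odd (i + j) → 0 < (t j - t i) * ε * (-1) ^ j) ∧
      (Even (i + j) → 0 < (t j - t i) * ε * (-1) ^ j * F (i + j))) :
    ∃ m ≤ d + 1, Same d t fun i => ε * (-1) ^ i * |2 * (i : ℝ) + 1 - 2 * m| := by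
  obtain ⟨m, hm, hm'⟩ := threshold (F := fun k => F (2 * k))
    (fun a b hab => hF (by omega)) d
  refine ⟨m, hm, fun i j hij hj => ?_⟩
  have hij' : (i : ℝ) + 1 ≤ j := by exact_mod_cast hij
  beta_reduce
  rcases Nat.even_or_odd (i + j) with hp | hp
  · have e := (h i j hij hj).2 hp
    obtain ⟨k, hk⟩ := hp
    have hp : Even (i + j) := ⟨k, hk⟩
    rw [hk, ← two_mul] at e
    have e1 := pos_mul_trans e (hm' k (by omega) fun h0 => by simp [h0] at e)
    have hk' : (i : ℝ) + j = k + k := by exact_mod_cast hk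
    have e2 : 0 < ((k : ℝ) - m + 1 / 2) * (|2 * (j : ℝ) + 1 - 2 * m| - |2 * (i : ℝ) + 1 - 2 * m|) := by
      rcases lt_or_gt_of_ne (half_ne k m) with h' | h'
      · refine mul_pos_of_neg_of_neg h' (sub_neg.mpr (sq_lt_sq.mp ?_))
        nlinarith
      · refine mul_pos h' (sub_pos.mpr (sq_lt_sq.mp ?_))
        nlinarith
    have := pos_mul_trans e1 e2
    rw [neg_one_pow_even hp]
    linarith
  · have e := (h i j hij hj).1 hp
    have e2 : 0 < |2 * (j : ℝ) + 1 - 2 * m| :=
      abs_pos.mpr fun h0 => half_ne j m (by linarith)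
    have e3 := abs_nonneg (2 * (i : ℝ) + 1 - 2 * m)
    rw [neg_one_pow_odd hp]
    nlinarith [mul_pos e e2, mul_nonneg e.le e3]

lemma farey (α : ℝ) {D : ℕ} (hD : 1 ≤ D) : ∃ (n : ℕ) (a : ℤ), 1 ≤ n ∧ n ≤ 2 * D ∧
    ∀ r : ℕ, 1 ≤ r → r ≤ D → n * ⌊r * α⌋ < r * a ∧ r * a < n * (⌊r * α⌋ + 1) := by
  have hne : (Icc 1 D).Nonempty := ⟨1, mem_Icc.mpr ⟨le_rfl, hD⟩⟩
  obtain ⟨q, hq, hq'⟩ := exists_max_image (Icc 1 D) (fun r : ℕ => (⌊r * α⌋ : ℝ) / r) hne
  obtain ⟨s, hs, hs'⟩ := exists_min_image (Icc 1 D) (fun r : ℕ => ((⌊r * α⌋ : ℝ) + 1) / r) hne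
  rw [mem_Icc] at hq hs
  have q0 : (0 : ℝ) < q := by exact_mod_cast hq.1
  have s0 : (0 : ℝ) < s := by exact_mod_cast hs.1
  have f1 : (⌊q * α⌋ : ℝ) ≤ q * α := Int.floor_le _
  have f2 : s * α < (⌊s * α⌋ : ℝ) + 1 := Int.lt_floor_add_one _
  have key : (⌊q * α⌋ : ℝ) * s < ((⌊s * α⌋ : ℝ) + 1) * q := by nlinarith
  refine ⟨q + s, ⌊q * α⌋ + ⌊s * α⌋ + 1, by omega, by omega, fun r h1 h2 => ?_⟩
  have r0 : (0 : ℝ) < r := by exact_mod_cast h1
  have e1 := hq' r (mem_Icc.mpr ⟨h1, h2⟩)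
  have e2 := hs' r (mem_Icc.mpr ⟨h1, h2⟩)
  constructor
  · have : (⌊r * α⌋ : ℝ) / r < (⌊q * α⌋ + ⌊s * α⌋ + 1) / (q + s) := by
      refine e1.trans_lt ?_
      rw [div_lt_div_iff₀ q0 (by linarith)]
      linarith
    rw [div_lt_div_iff₀ r0 (by linarith)] at this
    have h' : (((q + s : ℕ) : ℤ) * ⌊r * α⌋ : ℝ) < (r : ℤ) * (⌊q * α⌋ + ⌊s * α⌋ + 1 : ℤ) := by
      push_cast; linarith
    exact_mod_cast h'
  · have : (⌊q * α⌋ + ⌊s * α⌋ + 1 : ℝ) / (q + s) < ((⌊r * α⌋ : ℝ) + 1) / r := by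
      refine lt_of_lt_of_le ?_ e2
      rw [div_lt_div_iff₀ (by linarith) s0]
      linarith
    rw [div_lt_div_iff₀ (by linarith) r0] at this
    have h' : ((r : ℤ) * (⌊q * α⌋ + ⌊s * α⌋ + 1 : ℤ) : ℝ) <
        ((q + s : ℕ) : ℤ) * (⌊r * α⌋ + 1 : ℤ) := by
      push_cast; linarith
    exact_mod_cast h'

lemma sin_sign {z z' : ℝ} (hz : sin (z * π) ≠ 0) (h1 : (⌊z⌋ : ℝ) < z') (h2 : z' < ⌊z⌋ + 1) :
    0 < sin (z * π) * sin (z' * π) := by
  have e : ∀ w : ℝ, sin (w * π) = (-1) ^ ⌊z⌋ * sin ((w - ⌊z⌋) * π) := by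
    intro w
    rw [← sin_add_int_mul_pi]
    congr 1
    ring
  have p1 : 0 < sin ((z' - ⌊z⌋) * π) :=
    sin_pos_of_pos_of_lt_pi (mul_pos (by linarith) pi_pos) (by nlinarith [pi_pos])
  have p2 : 0 ≤ sin ((z - ⌊z⌋) * π) :=
    sin_nonneg_of_nonneg_of_le_pi (mul_nonneg (by linarith [Int.floor_le z]) pi_pos.le)
      (by nlinarith [pi_pos, Int.lt_floor_add_one z])
  have p3 : 0 < sin ((z - ⌊z⌋) * π) := lt_of_le_of_ne p2 fun h => hz (by rw [e, ← h, mul_zero])
  have p4 : (0 : ℝ) < (-1) ^ ⌊z⌋ * (-1) ^ ⌊z⌋ := mul_self_pos.mpr (zpow_ne_zero _ (by norm_num))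
  rw [e z, e z']
  nlinarith [mul_pos p4 (mul_pos p1 p3)]

lemma cos_dist {N : ℕ} (hN : 0 < N) (x : ℕ) :
    cos (2 * π * x / N) = cos (2 * π * distMultiple N x / N) := by
  have N0 : (N : ℝ) ≠ 0 := by positivity
  have e : cos (2 * π * x / N) = cos (2 * π * (x % N : ℕ) / N) := by
    rw [← cos_add_nat_mul_two_pi (2 * π * (x % N : ℕ) / N) (x / N)]
    congr 1
    have : (x : ℝ) = (x % N : ℕ) + N * (x / N : ℕ) := by exact_mod_cast (Nat.mod_add_div x N).symm
    field_simp
    linarith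
  rw [e, distMultiple]
  rcases min_choice (x % N) (N - x % N) with h | h
  · rw [h]
  · rw [h, ← cos_two_pi_sub, Nat.cast_sub (Nat.mod_lt x hN).le]
    congr 1
    field_simp

lemma dist_lt_iff {N : ℕ} (hN : 0 < N) (x y : ℕ) :
    distMultiple N x < distMultiple N y ↔ cos (2 * π * y / N) < cos (2 * π * x / N) := by
  have N0 : (0 : ℝ) < N := by positivity
  have mem : ∀ x, 2 * π * distMultiple N x / N ∈ Set.Icc 0 π := by
    intro x
    refine ⟨by positivity, ?_⟩
    have : 2 * distMultiple N x ≤ N := by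
      have := Nat.mod_lt x hN
      unfold distMultiple
      omega
    have : 2 * (distMultiple N x : ℝ) ≤ N := by exact_mod_cast this
    rw [div_le_iff₀ N0]
    nlinarith [pi_pos]
  rw [cos_dist hN x, cos_dist hN y, strictAntiOn_cos.lt_iff_gt (mem y) (mem x),
    div_lt_div_iff_of_pos_right N0, mul_lt_mul_iff_right₀ (by positivity), Nat.cast_lt]

lemma rot_of_cos {d : ℕ} {σ : Equiv.Perm (Fin (d + 1))} {ω φ : ℝ}
    (h : StrictAnti fun k => cos (σ k * ω + φ)) :
    ∃ N a b : ℕ, N ≤ 16 * d + 8 ∧ a < N ∧ b < N ∧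
      StrictMono fun k => distMultiple N (a * σ k + b) := by
  obtain ⟨α, rfl⟩ : ∃ α, ω = 2 * (α * π) := ⟨ω / (2 * π), by field_simp⟩
  obtain ⟨ψ, rfl⟩ : ∃ ψ, φ = ψ * π := ⟨φ / π, by field_simp⟩
  obtain ⟨n, a, n1, n2, hn⟩ := farey α (D := 2 * d + 1) (by omega)
  obtain ⟨s₀, hs₀, hm⟩ := exists_max_image (range (2 * d + 1))
    (fun s : ℕ => n * ⌊s * α + ψ⌋ - s * a) ⟨0, by simp⟩
  set m : ℤ := n * ⌊s₀ * α + ψ⌋ - s₀ * a with hmdef
  have hs₀' := mem_range.mp hs₀
  have n0 : (0 : ℤ) < n := by exact_mod_cast n1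
  have hm' : ∀ s : ℕ, s ≤ 2 * d → s * a + m < n * (⌊s * α + ψ⌋ + 1) := by
    intro s hs
    rcases lt_trichotomy s s₀ with h' | h' | h'
    · obtain ⟨r, rfl⟩ : ∃ r, s₀ = s + r := ⟨s₀ - s, by omega⟩
      have e1 := (hn r (by omega) (by omega)).1
      have e2 := Int.le_floor_add_floor (s * α + ψ) (r * α)
      rw [show s * α + ψ + r * α = ((s + r : ℕ) : ℝ) * α + ψ by push_cast; ring] at e2
      rw [hmdef]
      push_cast at e2 ⊢
      nlinarith
    · subst h'
      rw [hmdef]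
      linarith
    · obtain ⟨r, rfl⟩ : ∃ r, s = s₀ + r := ⟨s - s₀, by omega⟩
      have e1 := (hn r (by omega) (by omega)).2
      have e2 := Int.le_floor_add (s₀ * α + ψ) (r * α)
      rw [show s₀ * α + ψ + r * α = ((s₀ + r : ℕ) : ℝ) * α + ψ by push_cast; ring] at e2
      rw [hmdef]
      push_cast at e2 ⊢
      nlinarith
  have n0' : (0 : ℝ) < n := by exact_mod_cast n1
  have hS : Same d (fun i => cos (i * (2 * (α * π)) + ψ * π))
      (fun i => cos (i * (2 * (a / n * π)) + (m + 1 / 2) / n * π)) := by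
    intro i j hij hj
    have e0 := ne_of_anti (t := fun i => cos (i * (2 * (α * π)) + ψ * π)) h i j hij hj
    obtain ⟨r, rfl⟩ : ∃ r, j = i + r := ⟨j - i, by omega⟩
    have c : ∀ α ψ : ℝ, cos (((i + r : ℕ) : ℝ) * (2 * (α * π)) + ψ * π) -
        cos (i * (2 * (α * π)) + ψ * π) =
        -2 * sin ((((i + (i + r) : ℕ) : ℝ) * α + ψ) * π) * sin (r * α * π) := by
      intro α ψ
      rw [cos_sub_cos]
      congr 2
      · congr 1
        push_cast; ring
      · push_cast; ring
    simp only [c] at e0 ⊢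
    have p1 := hn r (by omega) (by omega)
    have p2 := hm (i + (i + r)) (mem_range.mpr (by omega))
    have p3 := hm' (i + (i + r)) (by omega)
    generalize i + (i + r) = s at *
    have q1 : 0 < sin (r * α * π) * sin (r * (a / n) * π) := by
      refine sin_sign (right_ne_zero_of_mul e0) ?_ ?_
      · rw [← mul_div_assoc, lt_div_iff₀ n0', mul_comm]
        exact_mod_cast p1.1
      · rw [← mul_div_assoc, div_lt_iff₀ n0', mul_comm _ (n : ℝ)]
        exact_mod_cast p1.2
    have q2 : 0 < sin ((s * α + ψ) * π) * sin ((s * (a / n) + (m + 1 / 2) / n) * π) := by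
      refine sin_sign (right_ne_zero_of_mul (left_ne_zero_of_mul e0)) ?_ ?_
      · rw [← mul_div_assoc, ← add_div, lt_div_iff₀ n0']
        have : (n * ⌊s * α + ψ⌋ - s * a : ℝ) ≤ m := by exact_mod_cast p2
        linarith
      · rw [← mul_div_assoc, ← add_div, div_lt_iff₀ n0']
        have : (s * a + m + 1 : ℝ) ≤ n * (⌊s * α + ψ⌋ + 1) := by exact_mod_cast p3
        linarith
    nlinarith [mul_pos q1 q2]
  have h' := hS.anti h
  have N0 : (0 : ℤ) < 4 * n := by omega
  obtain ⟨a', ha'⟩ := Int.eq_ofNat_of_zero_le (Int.emod_nonneg (4 * a) N0.ne')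
  obtain ⟨b', hb'⟩ := Int.eq_ofNat_of_zero_le (Int.emod_nonneg (2 * m + 1) N0.ne')
  have la := Int.emod_lt_of_pos (4 * a) N0
  have lb := Int.emod_lt_of_pos (2 * m + 1) N0
  refine ⟨4 * n, a', b', by omega, by omega, by omega, fun k l hkl => ?_⟩
  have c : ∀ i : ℕ, cos (2 * π * (a' * i + b' : ℕ) / (4 * n : ℕ)) =
      cos (i * (2 * (a / n * π)) + (m + 1 / 2) / n * π) := by
    intro i
    rw [← cos_add_int_mul_two_pi _ (i * (4 * a / (4 * n)) + (2 * m + 1) / (4 * n))]
    congr 1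
    have e1 := Int.emod_add_mul_ediv (4 * a) (4 * n)
    have e2 := Int.emod_add_mul_ediv (2 * m + 1) (4 * n)
    rw [ha'] at e1
    rw [hb'] at e2
    generalize 4 * a / (4 * n : ℤ) = x at *
    generalize (2 * m + 1) / (4 * n : ℤ) = y at *
    have e1' : (a' + 4 * n * x : ℝ) = 4 * a := by exact_mod_cast e1
    have e2' : (b' + 4 * n * y : ℝ) = 2 * m + 1 := by exact_mod_cast e2
    have ea : (a : ℝ) = (a' + 4 * n * x) / 4 := by linarith
    have em : (m : ℝ) = (b' + 4 * n * y - 1) / 2 := by linarith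
    rw [ea, em]
    push_cast
    field_simp
    ring
  show distMultiple _ _ < distMultiple _ _
  rw [dist_lt_iff (by omega), c, c]
  exact h' hkl

end Pool.Agent.MP_74fd1e_al

end

-- part MP_74fd1e_al.Nec
section

namespace Pool.Agent.MP_74fd1e_al

open Module Matrix Polynomial

variable {d : ℕ} {V : Type} [AddCommGroup V] [Module ℝ V]

lemma exists_basis (hV : finrank ℝ V = d + 1) {A : Module.End ℝ V} {θ : Fin (d + 1) → ℝ}
    {E : Fin (d + 1) → Module.End ℝ V} (h : IsIdempotentOrdering A θ E) :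
    ∃ b : Basis (Fin (d + 1)) ℝ V, LinearMap.toMatrix b b A = diagonal θ ∧
      ∀ (X : Module.End ℝ V) i j, E i * X * E j = 0 ↔ LinearMap.toMatrix b b X i j = 0 := by
  obtain ⟨h1, h2, h3⟩ := h
  choose v hv using fun i => (h2 i).exists_hasEigenvector
  have hli : LinearIndependent ℝ v := A.eigenvectors_linearIndependent' θ h1 v hv
  let b : Basis (Fin (d + 1)) ℝ V := basisOfLinearIndependentOfCardEqFinrank hli (by simp [hV])
  have hb : ∀ i, b i = v i := fun i => by simp [b]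
  have hE : ∀ i j, E i (b j) = if i = j then b j else 0 := fun i j => by
    rw [hb]; exact h3 i j _ (hv j).1
  have hE' : ∀ i x, E i x = b.repr x i • b i := by
    intro i x
    conv_lhs => rw [← b.sum_repr x]
    simp only [map_sum, map_smul, hE, smul_ite, smul_zero, Finset.sum_ite_eq, Finset.mem_univ,
      if_true]
  refine ⟨b, ?_, fun X i j => ?_⟩
  · ext i j
    rw [LinearMap.toMatrix_apply, hb, (hv j).apply_eq_smul, ← hb, map_smul, diagonal_apply]
    by_cases hij : i = j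
    · subst hij; simp
    · simp [hij]
  · rw [LinearMap.toMatrix_apply]
    constructor
    · intro h
      have := congrArg (fun f : Module.End ℝ V => f (b j)) h
      simp only [Module.End.mul_apply, hE, if_true, LinearMap.zero_apply] at this
      rw [hE'] at this
      exact (smul_eq_zero.mp this).resolve_right (b.ne_zero i)
    · intro h
      refine b.ext fun k => ?_
      simp only [Module.End.mul_apply, hE, LinearMap.zero_apply]
      split_ifs with hk
      · subst hk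
        rw [hE', h, zero_smul]
      · simp

/-- vectors supported on the first `k + 1` coordinates -/
def Low (k : ℕ) (x : Fin (d + 1) → ℝ) : Prop := ∀ i : Fin (d + 1), k < i.1 → x i = 0

lemma Low.mulVec {C : Matrix (Fin (d + 1)) (Fin (d + 1)) ℝ}
    (hC : ∀ i j : Fin (d + 1), j.1 + 1 < i.1 → C i j = 0) {k : ℕ} {x : Fin (d + 1) → ℝ}
    (hx : Low k x) : Low (k + 1) (C *ᵥ x) := by
  intro i hi
  show ∑ j, C i j * x j = 0
  refine Finset.sum_eq_zero fun j _ => ?_
  by_cases hj : k < j.1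
  · rw [hx j hj, mul_zero]
  · rw [hC i j (by omega), zero_mul]

lemma Low.diag (θ : Fin (d + 1) → ℝ) {k : ℕ} {x : Fin (d + 1) → ℝ}
    (hx : Low k x) : Low k (diagonal θ *ᵥ x) := by
  intro i hi
  rw [mulVec_diagonal, hx i hi, mul_zero]

lemma pow_low {C : Matrix (Fin (d + 1)) (Fin (d + 1)) ℝ}
    (hC : ∀ i j : Fin (d + 1), j.1 + 1 < i.1 → C i j = 0)
    (hC' : ∀ i j : Fin (d + 1), j.1 + 1 = i.1 → C i j ≠ 0) (k : ℕ) :
    Low k (C ^ k *ᵥ Pi.single 0 1) ∧
      ∀ i : Fin (d + 1), i.1 = k → (C ^ k *ᵥ Pi.single 0 1) i ≠ 0 := by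
  induction k with
  | zero =>
    refine ⟨fun i hi => ?_, fun i hi => ?_⟩
    · have : i ≠ 0 := fun h => by simp [h] at hi
      simp [this]
    · have : i = 0 := Fin.ext hi
      simp [this]
  | succ k ih =>
    rw [pow_succ', ← mulVec_mulVec]
    refine ⟨ih.1.mulVec hC, fun i hi => ?_⟩
    have hk : k < d + 1 := by have := i.2; omega
    have : (C *ᵥ (C ^ k *ᵥ Pi.single 0 1)) i =
        C i ⟨k, hk⟩ * (C ^ k *ᵥ Pi.single 0 1) ⟨k, hk⟩ := by
      show ∑ j, C i j * (C ^ k *ᵥ Pi.single 0 1) j = _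
      refine Finset.sum_eq_single _ (fun j _ hj => ?_) (by simp)
      have hj' : j.1 ≠ k := fun h => hj (Fin.ext h)
      by_cases hjk : k < j.1
      · rw [ih.1 j hjk, mul_zero]
      · rw [hC i j (by omega), zero_mul]
    rw [this]
    exact mul_ne_zero (hC' _ _ hi.symm) (ih.2 _ rfl)

lemma aeval_diagonal (θ : Fin (d + 1) → ℝ) (p : ℝ[X]) :
    aeval (diagonal θ) p = diagonal fun i => p.eval (θ i) := by
  have := aeval_algHom_apply (diagonalAlgHom ℝ (n := Fin (d + 1)) (α := ℝ)) θ p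
  simp only [diagonalAlgHom_apply] at this
  rw [this]
  congr 1
  ext i
  rw [← coe_aeval_eq_eval]
  exact (aeval_algHom_apply (Pi.evalAlgHom ℝ (fun _ : Fin (d + 1) => ℝ) i) θ p).symm

/-- the eigenvalue sequence of a Leonard system is recurrent -/
theorem recurrent (hV : finrank ℝ V = d + 1) {A A' : Module.End ℝ V}
    {E E' : Fin (d + 1) → Module.End ℝ V} {θ θ' : Fin (d + 1) → ℝ}
    (h : IsLeonardSystem A A' E E' θ θ') :
    ∃ (t : ℕ → ℝ) (β γ : ℝ), (∀ i : Fin (d + 1), t i = θ i) ∧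
      ∀ i, i + 2 ≤ d → t i + t (i + 2) = β * t (i + 1) + γ := by
  classical
  obtain ⟨h1, h2, h3, h4⟩ := h
  let t : ℕ → ℝ := fun i => if h : i < d + 1 then θ ⟨i, h⟩ else 0
  have ht : ∀ i : Fin (d + 1), t i = θ i := fun i => dif_pos i.2
  have hinj : ∀ i j, i ≤ d → j ≤ d → i ≠ j → t i ≠ t j := by
    intro i j hi hj hij e
    have e' : θ ⟨i, by omega⟩ = θ ⟨j, by omega⟩ := by rw [← ht, ← ht]; exact e
    exact hij (congrArg Fin.val (h1.1 e'))
  by_cases hd : d ≤ 2
  · refine ⟨t, 0, t 0 + t 2, ht, fun i hi => ?_⟩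
    obtain rfl : i = 0 := by omega
    simp
  obtain ⟨b, hb1, hb2⟩ := exists_basis hV h1
  obtain ⟨c, hc1, hc2⟩ := exists_basis hV h2
  let r : ℕ → ℝ := fun i => -∑ k ∈ Finset.range i, t k * t (k + 1) * (t k - t (k + 1))
  let p : ℝ[X] := Lagrange.interpolate Finset.univ θ fun i => r i
  have hp : ∀ i : Fin (d + 1), p.eval (θ i) = r i := fun i =>
    Lagrange.eval_interpolate_at_node _ h1.1.injOn (Finset.mem_univ i)
  have hdeg : p.natDegree ≤ d := by
    have := Lagrange.degree_interpolate_lt (fun i : Fin (d + 1) => r i)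
      (h1.1.injOn (s := (Finset.univ : Finset (Fin (d + 1)))))
    rw [Finset.card_univ, Fintype.card_fin] at this
    by_cases hp0 : p = 0
    · rw [hp0]; simp
    · exact Nat.lt_succ_iff.mp ((natDegree_lt_iff_degree_lt hp0).mpr this)
  have hid : A * A * A' * A - A * A' * (A * A) = aeval A p * A' - A' * aeval A p := by
    apply (LinearMap.toMatrixAlgEquiv b).injective
    simp only [map_sub, map_mul, ← aeval_algHom_apply]
    have e : LinearMap.toMatrixAlgEquiv b A = diagonal θ := hb1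
    rw [e, aeval_diagonal]
    ext i j
    simp only [diagonal_mul_diagonal, Matrix.sub_apply, mul_diagonal, diagonal_mul, hp]
    rcases lt_trichotomy 1 |(i : ℤ) - (j : ℤ)| with hij | hij | hij
    · have : LinearMap.toMatrixAlgEquiv b A' i j = 0 := (hb2 A' i j).mp ((h3 i j).1 hij)
      rw [this]; ring
    · rw [← ht, ← ht]
      rcases (abs_eq (by norm_num)).mp hij.symm with h | h
      · have : (i : ℕ) = j + 1 := by omega
        rw [this]
        simp only [r, Finset.sum_range_succ]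
        ring
      · have : (j : ℕ) = i + 1 := by omega
        rw [this]
        simp only [r, Finset.sum_range_succ]
        ring
    · have : i = j := Fin.ext (by have := abs_lt.mp hij; omega)
      subst this
      ring
  have hdeg3 : p.natDegree ≤ 3 := by
    by_contra hlt
    push Not at hlt
    have hid' := congrArg (LinearMap.toMatrixAlgEquiv c) hid
    simp only [map_sub, map_mul, ← aeval_algHom_apply] at hid'
    have e : LinearMap.toMatrixAlgEquiv c A' = diagonal θ' := hc1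
    rw [e] at hid'
    set C := LinearMap.toMatrixAlgEquiv c A
    have hC : ∀ i j : Fin (d + 1), j.1 + 1 < i.1 → C i j = 0 := fun i j hij =>
      (hc2 A i j).mp ((h4 i j).1 (by rw [lt_abs]; omega))
    have hC' : ∀ i j : Fin (d + 1), j.1 + 1 = i.1 → C i j ≠ 0 := fun i j hij h0 =>
      (h4 i j).2 (by rw [abs_eq (by norm_num)]; omega) ((hc2 A i j).mpr h0)
    let n : Fin (d + 1) := ⟨p.natDegree, by omega⟩
    have l0 : Low 0 (Pi.single 0 1 : Fin (d + 1) → ℝ) := by
      have := (pow_low hC hC' 0).1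
      rwa [pow_zero, one_mulVec] at this
    have e1 := congrFun (congrArg (· *ᵥ (Pi.single 0 1 : Fin (d + 1) → ℝ)) hid') n
    simp only [sub_mulVec, ← mulVec_mulVec, Pi.sub_apply] at e1
    rw [(((l0.mulVec hC).diag θ').mulVec hC).mulVec hC n hlt,
      (((l0.mulVec hC).mulVec hC).diag θ').mulVec hC n hlt, mulVec_diagonal] at e1
    have e2 : diagonal θ' *ᵥ (Pi.single 0 1 : Fin (d + 1) → ℝ) = θ' 0 • Pi.single 0 1 := by
      ext i
      rw [mulVec_diagonal]
      by_cases hi : i = 0 <;> simp [hi]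
    rw [e2, mulVec_smul, Pi.smul_apply, smul_eq_mul] at e1
    have e3 : (aeval C p *ᵥ (Pi.single 0 1 : Fin (d + 1) → ℝ)) n =
        p.leadingCoeff * (C ^ p.natDegree *ᵥ Pi.single 0 1) n := by
      rw [aeval_eq_sum_range, sum_mulVec, Finset.sum_apply, Finset.sum_range_succ,
        Finset.sum_eq_zero, zero_add, smul_mulVec, Pi.smul_apply, smul_eq_mul]
      · rfl
      · intro k hk
        rw [smul_mulVec, Pi.smul_apply, (pow_low hC hC' k).1 n (Finset.mem_range.mp hk), smul_zero]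
    have hp0 : p ≠ 0 := fun h0 => by rw [h0] at hlt; simp at hlt
    have hne : (aeval C p *ᵥ (Pi.single 0 1 : Fin (d + 1) → ℝ)) n ≠ 0 := by
      rw [e3]
      exact mul_ne_zero (leadingCoeff_ne_zero.mpr hp0) ((pow_low hC hC' _).2 n rfl)
    have : θ' 0 = θ' n := by
      apply mul_right_cancel₀ hne
      linarith
    have := congrArg Fin.val (h2.1 this)
    simp only [Fin.coe_ofNat_eq_mod, Nat.zero_mod, n] at this
    omega
  have hev : ∀ i, i ≤ d → r i = p.coeff 0 + p.coeff 1 * t i + p.coeff 2 * t i ^ 2 +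
      p.coeff 3 * t i ^ 3 := by
    intro i hi
    have := hp ⟨i, by omega⟩
    rw [← ht, eval_eq_sum_range' (n := 4) (by omega)] at this
    simp only [Finset.sum_range_succ, Finset.sum_range_zero] at this
    rw [← this]
    ring
  have hq : ∀ i, i + 1 ≤ d → t i * t (i + 1) = p.coeff 1 + p.coeff 2 * (t i + t (i + 1)) +
      p.coeff 3 * (t i ^ 2 + t i * t (i + 1) + t (i + 1) ^ 2) := by
    intro i hi
    have e1 := hev i (by omega)
    have e2 := hev (i + 1) hi
    simp only [r, Finset.sum_range_succ] at e1 e2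
    apply mul_left_cancel₀ (sub_ne_zero.mpr (hinj i (i + 1) (by omega) hi (by omega)))
    linear_combination e1 - e2
  have hl : ∀ i, i + 2 ≤ d →
      t (i + 1) = p.coeff 2 + p.coeff 3 * (t i + t (i + 1) + t (i + 2)) := by
    intro i hi
    have e1 := hq i (by omega)
    have e2 := hq (i + 1) hi
    apply mul_left_cancel₀ (sub_ne_zero.mpr (hinj i (i + 2) (by omega) hi (by omega)))
    linear_combination e1 - e2
  have h30 : p.coeff 3 ≠ 0 := by
    intro h0
    have e1 := hl 0 (by omega)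
    have e2 := hl 1 (by omega)
    rw [h0] at e1 e2
    exact hinj 1 2 (by omega) (by omega) (by omega) (by linarith)
  refine ⟨t, 1 / p.coeff 3 - 1, -p.coeff 2 / p.coeff 3, ht, fun i hi => ?_⟩
  have := hl i hi
  field_simp
  linear_combination -this

end Pool.Agent.MP_74fd1e_al

end

-- part MP_74fd1e_al.Suff
section

namespace Pool.Agent.MP_74fd1e_al

open Module Matrix Finset

variable {d : ℕ} {V : Type} [AddCommGroup V] [Module ℝ V]

lemma idem_of_alg {A : Module.End ℝ V} {θ : Fin (d + 1) → ℝ} {E : Fin (d + 1) → Module.End ℝ V}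
    (hθ : Function.Injective θ) (h1 : ∀ i, A * E i = θ i • E i) (h2 : ∀ i, E i * A = θ i • E i)
    (h3 : ∑ i, E i = 1) (h4 : ∀ i, E i ≠ 0) : IsIdempotentOrdering A θ E := by
  refine ⟨hθ, fun i => ?_, fun i j v hv => ?_⟩
  · obtain ⟨v, hv⟩ : ∃ v, E i v ≠ 0 := by
      by_contra h
      push Not at h
      exact h4 i (LinearMap.ext h)
    refine Module.End.hasEigenvalue_of_hasEigenvector (x := E i v) ⟨?_, hv⟩
    rw [Module.End.mem_eigenspace_iff]
    exact congrArg (fun f : Module.End ℝ V => f v) (h1 i)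
  · rw [Module.End.mem_eigenspace_iff] at hv
    have key : ∀ k, k ≠ j → E k v = 0 := by
      intro k hk
      have e := congrArg (fun f : Module.End ℝ V => f v) (h2 k)
      simp only [Module.End.mul_apply, hv, map_smul, LinearMap.smul_apply] at e
      have e' : (θ j - θ k) • E k v = 0 := by rw [sub_smul, e, sub_self]
      exact (smul_eq_zero.mp e').resolve_left (sub_ne_zero.mpr fun h => hk (hθ h).symm)
    split_ifs with hij
    · subst hij
      have e := congrArg (fun f : Module.End ℝ V => f v) h3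
      simp only [LinearMap.sum_apply, Module.End.one_apply] at e
      rw [Finset.sum_eq_single i (fun k _ hk => key k hk) (by simp)] at e
      exact e
    · exact key i hij

/-- irreducible tridiagonal matrices -/
def Tri (C : Matrix (Fin (d + 1)) (Fin (d + 1)) ℝ) : Prop :=
  ∀ i j : Fin (d + 1), (1 < |(i : ℤ) - (j : ℤ)| → C i j = 0) ∧ (|(i : ℤ) - (j : ℤ)| = 1 → C i j ≠ 0)

lemma Tri.transpose {C : Matrix (Fin (d + 1)) (Fin (d + 1)) ℝ} (h : Tri C) : Tri Cᵀ := by
  intro i j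
  rw [abs_sub_comm]
  exact h j i

lemma half (Φ : Matrix (Fin (d + 1)) (Fin (d + 1)) ℝ →ₐ[ℝ] Module.End ℝ V)
    (hΦ : Function.Injective Φ) {θ : Fin (d + 1) → ℝ} (hθ : Function.Injective θ)
    {C : Matrix (Fin (d + 1)) (Fin (d + 1)) ℝ} (hC : Tri C) :
    IsIdempotentOrdering (Φ (diagonal θ)) θ (fun i => Φ (single i i 1)) ∧
      ActsTridiagonally (Φ C) (fun i => Φ (single i i 1)) := by
  have h0 : ∀ Z, Φ Z = 0 ↔ Z = 0 := fun Z => map_eq_zero_iff Φ hΦ
  refine ⟨idem_of_alg hθ (fun i => ?_) (fun i => ?_) ?_ (fun i => ?_), fun i j => ?_⟩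
  · rw [← map_mul, ← map_smul]
    congr 1
    ext a b
    rw [diagonal_mul, Matrix.smul_apply, single_apply]
    split_ifs with h
    · rw [← h.1, smul_eq_mul]
    · simp
  · rw [← map_mul, ← map_smul]
    congr 1
    ext a b
    rw [mul_diagonal, Matrix.smul_apply, single_apply]
    split_ifs with h
    · rw [← h.2, smul_eq_mul, mul_comm]
    · simp
  · rw [← map_sum, ← map_one Φ]
    congr 1
    ext a b
    rw [Matrix.sum_apply, one_apply]
    simp only [single_apply]
    split_ifs with h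
    · subst h
      rw [Finset.sum_eq_single a (fun k _ hk => if_neg fun h => hk h.1) (by simp)]
      simp
    · exact Finset.sum_eq_zero fun k _ => if_neg fun h' => h (h'.1.symm.trans h'.2)
  · rw [Ne, h0]
    intro h
    have := congrFun (congrFun h i) i
    simp at this
  · simp only [← map_mul, Ne, h0, single_mul_mul_single, one_mul, mul_one]
    refine ⟨fun h => ?_, fun h h' => ?_⟩
    · rw [(hC i j).1 h, single_zero]
    · have := congrFun (congrFun h' i) j
      rw [single_apply_same] at this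
      exact (hC i j).2 h this

lemma leonard_of_matrix (hV : finrank ℝ V = d + 1) {θ : Fin (d + 1) → ℝ}
    (hθ : Function.Injective θ) {B M : Matrix (Fin (d + 1)) (Fin (d + 1)) ℝ} (hB : Tri B)
    (hM : IsUnit M.det) (hs : Mᵀ = M) (h : M * diagonal θ = B * M) :
    ∃ (A A' : Module.End ℝ V) (E E' : Fin (d + 1) → Module.End ℝ V),
      IsLeonardSystem A A' E E' θ θ := by
  have : FiniteDimensional ℝ V := Module.finite_of_finrank_pos (by omega)
  let b : Basis (Fin (d + 1)) ℝ V := Module.finBasisOfFinrankEq ℝ V hV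
  let Φ : Matrix (Fin (d + 1)) (Fin (d + 1)) ℝ →ₐ[ℝ] Module.End ℝ V :=
    (Matrix.toLinAlgEquiv b).toAlgHom
  have hΦ : Function.Injective Φ := (Matrix.toLinAlgEquiv b).injective
  have h1 : M * M⁻¹ = 1 := mul_nonsing_inv M hM
  have h2 : M⁻¹ * M = 1 := nonsing_inv_mul M hM
  let c : Matrix (Fin (d + 1)) (Fin (d + 1)) ℝ →ₐ[ℝ] Matrix (Fin (d + 1)) (Fin (d + 1)) ℝ :=
    { toFun := fun Z => M * Z * M⁻¹
      map_one' := by rw [mul_one, h1]
      map_mul' := fun X Y => by
        calc M * (X * Y) * M⁻¹ = M * X * (M⁻¹ * M) * Y * M⁻¹ := by rw [h2]; simp only [mul_assoc, one_mul]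
          _ = _ := by simp only [mul_assoc]
      map_zero' := by simp
      map_add' := fun X Y => by rw [mul_add, add_mul]
      commutes' := fun r => by
        rw [Algebra.algebraMap_eq_smul_one, mul_smul_comm, smul_mul_assoc, mul_one, h1] }
  have hc : ∀ Z, c Z = M * Z * M⁻¹ := fun Z => rfl
  have hci : Function.Injective c := by
    intro X Y e
    have e' := congrArg (fun Z => M⁻¹ * Z * M) e
    simp only [hc, ← mul_assoc, h2, one_mul] at e'
    simpa only [mul_assoc, h2, mul_one] using e'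
  have e1 : c (diagonal θ) = B := by rw [hc, h, mul_assoc, h1, mul_one]
  have e2 : c Bᵀ = diagonal θ := by
    have := congrArg transpose h
    rw [transpose_mul, transpose_mul, hs, diagonal_transpose] at this
    rw [hc, ← this, mul_assoc, h1, mul_one]
  obtain ⟨p1, p2⟩ := half Φ hΦ hθ hB
  obtain ⟨q1, q2⟩ := half (Φ.comp c) (hΦ.comp hci) hθ hB.transpose
  rw [AlgHom.comp_apply, e1] at q1
  rw [AlgHom.comp_apply, e2] at q2
  exact ⟨_, _, _, _, p1, q1, p2, q2⟩

/-- scalar relations behind the Askey-Wilson relation -/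
structure Rel (β ϱ ω η : ℝ) (a b f : ℤ → ℝ) : Prop where
  ha : ∀ i, a (i + 1) = β * a i - a (i - 1)
  hr : ∀ i, ϱ = a (i - 1) ^ 2 - β * a i * a (i - 1) + a i ^ 2
  hb : ∀ i, b (i + 2) = β * b (i + 1) - b i
  r1 : ∀ i, f (i + 2) = β * f (i + 1) - f i + ω + β * (a i * b i + a (i + 1) * b (i + 1)) -
    (a i + a (i + 1)) * (b i + b (i + 1))
  r2 : ∀ i, η = f i * (a i - a (i + 1)) + f (i + 1) * (a i - a (i - 1)) +
    ((2 - β) * a i ^ 2 - ϱ) * b i - ω * a i
  f0 : f 0 = 0

section AW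

variable {n : Type} [Fintype n] [DecidableEq n]

/-- the Askey-Wilson expression -/
def aw (β ϱ ω η : ℝ) (A B : Matrix n n ℝ) : Matrix n n ℝ :=
  A * A * B - β • (A * B * A) + B * A * A - ϱ • B - ω • A - η • (1 : Matrix n n ℝ)

lemma step {β ϱ ω η : ℝ} {a b f : ℤ → ℝ} (h : Rel β ϱ ω η a b f) {A B : Matrix n n ℝ}
    {x : ℕ → n → ℝ} (hA : ∀ i : ℕ, A *ᵥ x i = a i • x i + x (i + 1)) (i : ℕ)
    (h0 : B *ᵥ x i = b i • x i + f i • x (i - 1))
    (h1 : B *ᵥ x (i + 1) = b (i + 1) • x (i + 1) + f (i + 1) • x i) :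
    aw β ϱ ω η A B *ᵥ x i =
      B *ᵥ x (i + 2) - (b (i + 2) • x (i + 2) + f (i + 2) • x (i + 1)) := by
  have hz : A *ᵥ (f i • x (i - 1)) = a (i - 1) • f i • x (i - 1) + f i • x i := by
    rcases i with _ | k
    · simp [h.f0]
    · rw [mulVec_smul, Nat.add_sub_cancel, hA k]
      push_cast
      rw [add_sub_cancel_right]
      module
  generalize f i • x (i - 1) = z at h0 hz
  have a1 := hA (i + 1)
  push_cast at a1
  have a0 := hA i
  simp only [aw, sub_mulVec, add_mulVec, smul_mulVec, ← mulVec_mulVec, one_mulVec, a0, a1, h0, h1,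
    hz, mulVec_add, mulVec_smul]
  rw [h.r1 i, h.hb i, h.r2 i, h.hr i, h.ha i]
  module

lemma forward {β ϱ ω η : ℝ} {a b f : ℤ → ℝ} (h : Rel β ϱ ω η a b f) {A B : Matrix n n ℝ}
    (hZ : aw β ϱ ω η A B = 0) {x : ℕ → n → ℝ} (hA : ∀ i : ℕ, A *ᵥ x i = a i • x i + x (i + 1))
    (h0 : B *ᵥ x 0 = b 0 • x 0) (h1 : B *ᵥ x 1 = b 1 • x 1 + f 1 • x 0) (i : ℕ) :
    B *ᵥ x i = b i • x i + f i • x (i - 1) := by
  induction i using Nat.twoStepInduction with
  | zero => simp [h0, h.f0]
  | one => simpa using h1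
  | more i ih0 ih1 =>
    have := step h hA i ih0 (by simpa using ih1)
    rw [hZ, zero_mulVec] at this
    have e := sub_eq_zero.mp this.symm
    simpa using e

end AW

lemma const_of_step {h : ℤ → ℝ} (hs : ∀ i, h (i + 1) = h i) (i : ℤ) : h i = h 0 := by
  induction i using Int.induction_on with
  | zero => rfl
  | succ k ih => rw [hs, ih]
  | pred k ih => rw [← ih, ← hs (-(k : ℤ) - 1), sub_add_cancel]

lemma rel_of {β : ℝ} {a b g : ℤ → ℝ} (ha : ∀ i, a (i + 1) = β * a i - a (i - 1))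
    (hb : ∀ i, b (i + 1) = β * b i - b (i - 1)) (hg : ∀ i, g (i + 1) = β * g i - g (i - 1))
    (t e : ℝ) (f : ℤ → ℝ) (hf : ∀ i, f i = t * (g i - g 0) + (b i - b 0) * (a (i - 1) - e))
    (ϱ ω η : ℝ) (hϱ : ϱ = a (-1) ^ 2 - β * a 0 * a (-1) + a 0 ^ 2)
    (hω : ω = f 2 - β * f 1 - β * (a 0 * b 0 + a 1 * b 1) + (a 0 + a 1) * (b 0 + b 1))
    (hη : η = f 1 * (a 0 - a (-1)) + ((2 - β) * a 0 ^ 2 - ϱ) * b 0 - ω * a 0) :
    Rel β ϱ ω η a b f := by
  have f0 : f 0 = 0 := by rw [hf]; ring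
  have two : ∀ {c : ℤ → ℝ}, (∀ i, c (i + 1) = β * c i - c (i - 1)) →
      ∀ i, c (i + 2) = β * c (i + 1) - c i := by
    intro c hc i
    have := hc (i + 1)
    rwa [add_assoc, add_sub_cancel_right, one_add_one_eq_two] at this
  have hr : ∀ i, ϱ = a (i - 1) ^ 2 - β * a i * a (i - 1) + a i ^ 2 := by
    intro i
    have := const_of_step (h := fun i => a (i - 1) ^ 2 - β * a i * a (i - 1) + a i ^ 2)
      (fun i => by rw [add_sub_cancel_right, ha i]; ring) i
    rw [this, hϱ, zero_sub]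
  have r1 : ∀ i, f (i + 2) = β * f (i + 1) - f i + ω + β * (a i * b i + a (i + 1) * b (i + 1)) -
      (a i + a (i + 1)) * (b i + b (i + 1)) := by
    intro i
    have := const_of_step (h := fun i => f (i + 2) - β * f (i + 1) + f i -
      β * (a i * b i + a (i + 1) * b (i + 1)) + (a i + a (i + 1)) * (b i + b (i + 1)))
      (fun i => by
        have e1 : i + 1 + 2 = i + 1 + 1 + 1 := by ring
        have e2 : i + 2 = i + 1 + 1 := by ring
        simp only [hf, e1, e2, add_sub_cancel_right, ha, hb, hg]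
        ring) i
    simp only [zero_add, f0] at this
    linear_combination this - hω
  refine ⟨ha, hr, two hb, r1, fun i => ?_, f0⟩
  have := const_of_step (h := fun i => f i * (a i - a (i + 1)) + f (i + 1) * (a i - a (i - 1)) +
    ((2 - β) * a i ^ 2 - ϱ) * b i - ω * a i)
    (fun i => by
      have e2 : i + 1 + 1 = i + 2 := by ring
      rw [e2, r1 i, add_sub_cancel_right, two ha i, hr i, ha i]
      ring) i
  simp only [zero_add, f0, zero_sub] at this
  linear_combination hη - this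

lemma hess {B : Matrix (Fin (d + 1)) (Fin (d + 1)) ℝ} {x : ℕ → Fin (d + 1) → ℝ} {b f : ℕ → ℝ}
    (h0 : ∀ i (k : Fin (d + 1)), k.1 < i → x i k = 0) (h1 : ∀ k : Fin (d + 1), x k k ≠ 0)
    (hf : ∀ i, 1 ≤ i → i ≤ d → f i ≠ 0) (hB : ∀ i, B *ᵥ x i = b i • x i + f i • x (i - 1))
    (k c : Fin (d + 1)) : (k.1 + 1 < c.1 → B k c = 0) ∧ (k.1 + 1 = c.1 → B k c ≠ 0) := by
  have key : ∀ c : Fin (d + 1), k.1 + 1 ≤ c.1 → (∀ j : Fin (d + 1), c.1 < j.1 → B k j = 0) →
      B k c * x c c = f c * x (c - 1) k := by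
    intro c hc ih
    have e := congrFun (hB c) k
    have e' : (B *ᵥ x c) k = B k c * x c c := by
      show ∑ j, B k j * x c j = _
      refine Finset.sum_eq_single _ (fun j _ hj => ?_) (by simp)
      have hj' : j.1 ≠ c.1 := fun h => hj (Fin.ext h)
      by_cases hjc : c.1 < j.1
      · rw [ih j hjc, zero_mul]
      · rw [h0 c j (by omega), mul_zero]
    rw [← e', e, Pi.add_apply, Pi.smul_apply, Pi.smul_apply, h0 c k (by omega), smul_zero,
      zero_add, smul_eq_mul]
  have main : ∀ m, ∀ c : Fin (d + 1), d + 1 - m ≤ c.1 → k.1 + 1 < c.1 → B k c = 0 := by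
    intro m
    induction m with
    | zero => intro c hc; have := c.2; omega
    | succ m ih =>
      intro c hc hk
      have := key c hk.le fun j hj => ih j (by omega) (by omega)
      rw [h0 (c - 1) k (by omega), mul_zero] at this
      exact (mul_eq_zero.mp this).resolve_right (h1 c)
  refine ⟨main (d + 1) c (by omega), fun hk hz => ?_⟩
  have := key c hk.le fun j hj => main (d + 1) j (by omega) (by omega)
  rw [hz, zero_mul, ← hk, Nat.add_sub_cancel] at this
  exact mul_ne_zero (hf _ (by omega) (by have := c.2; omega)) (h1 k) this.symm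

end Pool.Agent.MP_74fd1e_al

end

-- part MP_74fd1e_al.Suff2
section

namespace Pool.Agent.MP_74fd1e_al

open Module Matrix Finset

variable {d : ℕ} {V : Type} [AddCommGroup V] [Module ℝ V]

lemma sym_prop {β : ℝ} {g h : ℤ → ℝ} (hg : ∀ i, g (i + 1) = β * g i - g (i - 1))
    (hh : ∀ i, h (i + 1) = β * h i - h (i - 1)) {D : ℤ} (sg : ∀ i, g (D - i) = g i)
    (sh : ∀ i, h (D - i) = h i) (i j : ℤ) : g i * h j = g j * h i := by
  have W : ∀ i, g i * h (i + 1) - g (i + 1) * h i = g 0 * h 1 - g 1 * h 0 := by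
    intro i
    have := const_of_step (h := fun i => g i * h (i + 1) - g (i + 1) * h i)
      (fun i => by simp only [hg, hh, add_sub_cancel_right]; ring) i
    simpa using this
  have W0 : g 0 * h 1 - g 1 * h 0 = 0 := by
    have e := W (D - 1)
    rw [sub_add_cancel, sg, sh] at e
    have e1 := sg 0
    have e2 := sh 0
    rw [sub_zero] at e1 e2
    rw [e1, e2] at e
    linarith
  have main : ∀ k : ℤ, g i * h (i + k) = g (i + k) * h i ∧
      g i * h (i + k + 1) = g (i + k + 1) * h i := by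
    intro k
    induction k using Int.induction_on with
    | zero => exact ⟨by simp, by have := W i; rw [add_zero]; linarith⟩
    | succ k ih =>
      refine ⟨by rw [← add_assoc]; exact ih.2, ?_⟩
      rw [← add_assoc, hg (i + k + 1), hh (i + k + 1), add_sub_cancel_right]
      linear_combination β * ih.2 - ih.1
    | pred k ih =>
      have e : i + (-(k : ℤ) - 1) = i + -k - 1 := by ring
      rw [e, sub_add_cancel]
      refine ⟨?_, ih.1⟩
      have := ih.2
      rw [hg, hh] at this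
      linear_combination β * ih.1 - this
  have := (main (j - i)).1
  rwa [add_sub_cancel] at this

/-- the split basis -/
noncomputable def xv (θ : Fin (d + 1) → ℝ) (a : ℤ → ℝ) (i : ℕ) : Fin (d + 1) → ℝ :=
  fun b => ∏ k ∈ range i, (θ b - a k)

lemma xv_step (θ : Fin (d + 1) → ℝ) (a : ℤ → ℝ) (i : ℕ) :
    diagonal θ *ᵥ xv θ a i = a i • xv θ a i + xv θ a (i + 1) := by
  ext b
  rw [mulVec_diagonal, Pi.add_apply, Pi.smul_apply, smul_eq_mul]
  simp only [xv, prod_range_succ]
  ring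

theorem suff (hV : finrank ℝ V = d + 1) {θ : ℤ → ℝ} {β : ℝ} (hβ : β ≠ 2)
    (hθ : ∀ i, θ (i + 1) = β * θ i - θ (i - 1))
    (hinj : Function.Injective fun k : Fin (d + 1) => θ k) {h : ℤ → ℝ}
    (hh : ∀ i, h (i + 1) = β * h i - h (i - 1)) (sh : ∀ i, h (d + 1 - i) = h i)
    (hne : ∀ i : ℕ, 1 ≤ i → i ≤ d → h i ≠ h 0) :
    ∃ (A A' : Module.End ℝ V) (E E' : Fin (d + 1) → Module.End ℝ V),
      IsLeonardSystem A A' E E' (fun k => θ k) (fun k => θ k) := by
  classical
  have hθne : ∀ i j : ℕ, i ≤ d → j ≤ d → i ≠ j → θ i ≠ θ j := by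
    intro i j hi hj hij e
    exact hij (congrArg Fin.val (hinj (a₁ := ⟨i, by omega⟩) (a₂ := ⟨j, by omega⟩) e))
  let u : ℤ → ℝ := fun i => θ (d - i)
  have hu : ∀ i, u (i + 1) = β * u i - u (i - 1) := by
    intro i
    have := hθ (d - i)
    simp only [u]
    rw [show (d : ℤ) - (i + 1) = d - i - 1 by ring, show (d : ℤ) - (i - 1) = d - i + 1 by ring]
    linarith
  let g : ℤ → ℝ := fun i => θ i - θ (i - 1) + u (i - 1) - u i
  have hg : ∀ i, g (i + 1) = β * g i - g (i - 1) := by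
    intro i
    have e1 := hθ (i - 1)
    have e2 := hu (i - 1)
    rw [sub_add_cancel] at e1 e2
    simp only [g, add_sub_cancel_right, hθ i, hu i]
    linear_combination e2 - e1
  have sg : ∀ i, g (d + 1 - i) = g i := by
    intro i
    simp only [g, u]
    rw [show (d : ℤ) + 1 - i - 1 = d - i by ring, show (d : ℤ) - (d - i) = i by ring,
      show (d : ℤ) - (d + 1 - i) = i - 1 by ring, show (d : ℤ) - (i - 1) = d + 1 - i by ring]
    ring
  have hu0 : u 0 = θ d := by simp [u]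
  have g1 : g 1 - g 0 = (β - 2) * (θ 0 - θ d) := by
    have e1 := hθ 0
    have e2 := hu 0
    simp only [g, zero_add, zero_sub, sub_self] at e1 e2 ⊢
    rw [← hu0]
    linear_combination e1 - e2
  have gne : ∀ i : ℕ, 1 ≤ i → i ≤ d → g i - g 0 ≠ 0 := by
    intro i h1 h2 e
    have p := sym_prop hg hh sg sh
    have : (h i - h 0) * (g 1 - g 0) = 0 := by
      linear_combination (h 1 - h 0) * e + p 1 i + p i 0 + p 0 1
    rw [g1] at this
    have e0 := hθne 0 d (by omega) le_rfl (by omega)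
    exact mul_ne_zero (sub_ne_zero.mpr (hne i h1 h2))
      (mul_ne_zero (sub_ne_zero.mpr hβ) (sub_ne_zero.mpr (by simpa using e0))) this
  obtain ⟨c, hc⟩ : ∃ c, θ 1 = θ 0 + c * (β - 2) :=
    ⟨(θ 1 - θ 0) / (β - 2), by rw [div_mul_cancel₀ _ (sub_ne_zero.mpr hβ)]; ring⟩
  obtain ⟨t, ht⟩ := Infinite.exists_notMem_finset
    ((range (d + 1)).image (fun i : ℕ => -((θ i - θ 0) * (θ (i - 1) - θ d)) / (g i - g 0)) ∪
      (range (d + 1)).image (fun i : ℕ => -((θ i - θ 0) * (u (i - 1) - θ 0)) / (g i - g 0) - c))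
  let φ : ℤ → ℝ := fun i => t * (g i - g 0) + (θ i - θ 0) * (θ (i - 1) - θ d)
  let ψ : ℤ → ℝ := fun i => (t + c) * (g i - g 0) + (θ i - θ 0) * (u (i - 1) - θ 0)
  have hφ : ∀ i : ℕ, 1 ≤ i → i ≤ d → φ i ≠ 0 := by
    intro i h1 h2 e
    refine ht (mem_union_left _ (mem_image.mpr ⟨i, mem_range.mpr (by omega), ?_⟩))
    rw [div_eq_iff (gne i h1 h2)]
    simp only [φ] at e
    linarith
  have hψ : ∀ i : ℕ, 1 ≤ i → i ≤ d → ψ i ≠ 0 := by
    intro i h1 h2 e
    refine ht (mem_union_right _ (mem_image.mpr ⟨i, mem_range.mpr (by omega), ?_⟩))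
    rw [sub_eq_iff_eq_add, div_eq_iff (gne i h1 h2)]
    simp only [ψ] at e
    linarith
  have hφd : φ (d + 1) = 0 := by
    have := sg 0
    rw [sub_zero] at this
    simp only [φ, this, add_sub_cancel_right, sub_self, mul_zero, add_zero]
  have R1 := rel_of hθ hθ hg t (θ d) φ (fun _ => rfl) _ _ _ rfl rfl rfl
  have hϱ := R1.hr (d + 1)
  have em : θ (-1) = β * θ 0 - θ 1 := by have := hθ 0; rw [zero_add, zero_sub] at this; linarith
  have e2 : θ 2 = β * θ 1 - θ 0 := by have := hθ 1; norm_num at this; exact this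
  have eu1 : u 1 = β * u 0 - u (-1) := by have := hu 0; rwa [zero_add, zero_sub] at this
  have eu2 : u 2 = β * u 1 - u 0 := by have := hu 1; norm_num at this; exact this
  have R2 := rel_of hu hθ hg (t + c) (θ 0) ψ (fun _ => rfl)
    (θ (-1) ^ 2 - β * θ 0 * θ (-1) + θ 0 ^ 2)
    (φ 2 - β * φ 1 - β * (θ 0 * θ 0 + θ 1 * θ 1) + (θ 0 + θ 1) * (θ 0 + θ 1))
    (φ 1 * (θ 0 - θ (-1)) + ((2 - β) * θ 0 ^ 2 - (θ (-1) ^ 2 - β * θ 0 * θ (-1) + θ 0 ^ 2)) * θ 0 -
      (φ 2 - β * φ 1 - β * (θ 0 * θ 0 + θ 1 * θ 1) + (θ 0 + θ 1) * (θ 0 + θ 1)) * θ 0)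
    (by
      rw [hϱ]
      simp only [u, add_sub_cancel_right, sub_zero, sub_neg_eq_add]
      ring)
    (by
      simp only [φ, ψ, g, ← hu0]
      norm_num
      rw [eu2, eu1, e2, em, hc]
      ring)
    (by
      simp only [φ, ψ, g, ← hu0]
      norm_num
      rw [eu2, eu1, e2, em, hc]
      ring)
  obtain ⟨ϱ, ω, η, R1, R2⟩ : ∃ ϱ ω η, Rel β ϱ ω η θ θ φ ∧ Rel β ϱ ω η u θ ψ := ⟨_, _, _, R1, R2⟩
  set θ' : Fin (d + 1) → ℝ := fun k => θ k with hθ'
  let x := xv θ' θ
  let y := xv θ' u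
  have x0 : ∀ i (k : Fin (d + 1)), k.1 < i → x i k = 0 := fun i k hk =>
    prod_eq_zero (mem_range.mpr hk) (sub_self _)
  have x1 : ∀ k : Fin (d + 1), x k k ≠ 0 := fun k =>
    prod_ne_zero_iff.mpr fun j hj => sub_ne_zero.mpr
      (hθne k j (by omega) (by have := mem_range.mp hj; omega) (by have := mem_range.mp hj; omega))
  have xz : ∀ i, d < i → x i = 0 := fun i hi => funext fun k => x0 i k (by omega)
  let T : Matrix (Fin (d + 1)) (Fin (d + 1)) ℝ := of fun k i => x i k
  have hT : IsUnit T.det := by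
    rw [det_of_isLowerTriangular T (fun k i hki => x0 i k hki)]
    exact (prod_ne_zero_iff.mpr fun k _ => x1 k).isUnit
  let B : Matrix (Fin (d + 1)) (Fin (d + 1)) ℝ :=
    (of fun k (i : Fin (d + 1)) => (θ i • x i + φ i • x (i - 1)) k) * T⁻¹
  have hBT : B * T = of fun k (i : Fin (d + 1)) => (θ i • x i + φ i • x (i - 1)) k := by
    simp only [B]
    rw [mul_assoc, nonsing_inv_mul T hT, mul_one]
  have hBx : ∀ i : ℕ, B *ᵥ x i = θ i • x i + φ i • x (i - 1) := by
    intro i
    rcases lt_trichotomy i (d + 1) with hi | hi | hi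
    · ext k
      exact congrFun (congrFun hBT k) ⟨i, hi⟩
    · subst hi
      rw [xz _ (by omega)]
      push_cast
      rw [hφd]
      simp
    · rw [xz _ (by omega), xz _ (by omega)]
      simp
  have hZ := fun i : ℕ => step R1 (xv_step θ' θ) i (hBx i) (by simpa using hBx (i + 1))
  have hZ' : aw β ϱ ω η (diagonal θ') B * T = 0 := by
    ext k i
    have e := hZ i
    have e' := hBx (i + 2)
    push_cast at e'
    rw [show B *ᵥ xv θ' θ (i + 2) = _ from e', sub_self] at e
    exact congrFun e k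
  have hZ'' := congrArg (· * T⁻¹) hZ'
  simp only [mul_assoc, mul_nonsing_inv T hT, mul_one, zero_mul] at hZ''
  have y0 : y 0 = x 0 := by ext k; simp [x, y, xv]
  have y1 : y 1 = x 1 + (θ 0 - θ d) • x 0 := by ext k; simp [x, y, xv, u]
  have hBy := forward R2 hZ'' (xv_step θ' u)
    (by
      have := hBx 0
      simp only [Nat.cast_zero, R1.f0, zero_smul, add_zero] at this
      show B *ᵥ y 0 = θ 0 • y 0
      rw [y0, this])
    (by
      have p0 := hBx 0
      have p1 := hBx 1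
      simp only [Nat.cast_zero, R1.f0, zero_smul, add_zero, Nat.cast_one, Nat.sub_self] at p0 p1
      show B *ᵥ y 1 = θ 1 • y 1 + ψ 1 • y 0
      have : ψ 1 = φ 1 + (θ 0 - θ d) * (θ 0 - θ 1) := by
        simp only [φ, ψ, g1, sub_self, hu0, hc]
        ring
      rw [y0, y1, mulVec_add, mulVec_smul, p0, p1, this]
      module)
  have up := hess (B := B) (b := fun i => θ i) (f := fun i => φ i) x0 x1 hφ hBx
  have lo := hess (B := B.submatrix Fin.rev Fin.rev) (x := fun i k => y i k.rev)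
    (b := fun i => θ i) (f := fun i => ψ i)
    (fun i k hk => prod_eq_zero (mem_range.mpr hk) (by
      simp only [θ', u, Fin.val_rev]
      rw [sub_eq_zero]
      congr 1
      have := k.2
      omega))
    (fun k => prod_ne_zero_iff.mpr fun j hj => by
      have hj' := mem_range.mp hj
      have := hθne (d - k) (d - j) (by omega) (by omega) (by omega)
      simp only [θ', u, Fin.val_rev]
      rw [show d + 1 - (k.1 + 1) = d - k by omega, show (d : ℤ) - j = (d - j : ℕ) by omega]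
      exact sub_ne_zero.mpr this)
    hψ
    (fun i => by
      ext k
      have := congrFun (hBy i) k.rev
      refine Eq.trans ?_ this
      show ∑ j : Fin (d + 1), B k.rev j.rev * y i j.rev = ∑ j, B k.rev j * y i j
      exact Equiv.sum_comp Fin.revPerm fun j => B k.rev j * y i j)
  have hB : Tri B := by
    intro i j
    have hi := i.2
    have hj := j.2
    have l := lo i.rev j.rev
    simp only [submatrix_apply, Fin.rev_rev, Fin.val_rev] at l
    refine ⟨fun h => ?_, fun h => ?_⟩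
    · rcases lt_abs.mp h with h | h
      · exact l.1 (by omega)
      · exact (up i j).1 (by omega)
    · rcases (abs_eq (by norm_num)).mp h with h | h
      · exact l.2 (by omega)
      · exact (up i j).2 (by omega)
  let D : ℕ → ℝ := fun i => (∏ k ∈ range i, φ (k + 1))⁻¹
  have hD : ∀ i, i ≤ d → ∏ k ∈ range i, φ (k + 1) ≠ 0 := fun i hi =>
    prod_ne_zero_iff.mpr fun k hk => by
      have := hφ (k + 1) (by omega) (by have := mem_range.mp hk; omega)
      simpa using this
  let M := T * diagonal (fun i : Fin (d + 1) => D i) * Tᵀ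
  refine leonard_of_matrix hV hinj hB (M := M) ?_ ?_ ?_
  · simp only [M, det_mul, det_transpose, det_diagonal]
    have : ∏ k : Fin (d + 1), D k ≠ 0 :=
      prod_ne_zero_iff.mpr fun k _ => inv_ne_zero (hD k (Nat.lt_succ_iff.mp k.2))
    exact (hT.mul this.isUnit).mul hT
  · simp only [M, transpose_mul, transpose_transpose, diagonal_transpose, mul_assoc]
  · simp only [M]
    rw [← mul_assoc B, ← mul_assoc B, hBT]
    ext k l
    rw [mul_diagonal, Matrix.mul_apply, Matrix.mul_apply]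
    simp only [mul_diagonal, T, of_apply, transpose_apply]
    rw [Fin.sum_univ_eq_sum_range (fun i => x i k * D i * x i l),
      Fin.sum_univ_eq_sum_range (fun i => (θ i • x i + φ i • x (i - 1)) k * D i * x i l),
      sum_mul]
    have s1 : ∀ i : ℕ, x i k * D i * x i l * θ' l =
        θ i * x i k * D i * x i l + x i k * D i * x (i + 1) l := by
      intro i
      have := congrFun (xv_step θ' θ i) l
      rw [mulVec_diagonal, Pi.add_apply, Pi.smul_apply, smul_eq_mul] at this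
      linear_combination x i k * D i * this
    simp only [s1, Pi.add_apply, Pi.smul_apply, smul_eq_mul, add_mul, sum_add_distrib]
    congr 1
    rw [sum_range_succ, sum_range_succ', xz (d + 1) (by omega)]
    simp only [Pi.zero_apply, mul_zero, add_zero, Nat.cast_zero, R1.f0, zero_mul]
    refine sum_congr rfl fun i hi => ?_
    have hi' := mem_range.mp hi
    have p1 := hD i (by omega)
    have p2 := hφ (i + 1) (by omega) (by omega)
    simp only [D, prod_range_succ, Nat.add_sub_cancel]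
    push_cast at p2 ⊢
    field_simp

end Pool.Agent.MP_74fd1e_al

end

-- part MP_74fd1e_al.Main
section

namespace Pool.Agent.MP_74fd1e_al

open Real Finset

lemma closed {d : ℕ} {t w : ℕ → ℝ} {β γ : ℝ}
    (ht : ∀ i, i + 2 ≤ d → t i + t (i + 2) = β * t (i + 1) + γ)
    (hw : ∀ i, w i + w (i + 2) = β * w (i + 1) + γ) (h0 : t 0 = w 0) (h1 : t 1 = w 1) (i : ℕ) :
    i ≤ d → t i = w i := by
  induction i using Nat.twoStepInduction with
  | zero => exact fun _ => h0
  | one => exact fun _ => h1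
  | more i ih0 ih1 =>
    intro hi
    have e := ht i hi
    rw [ih0 (by omega), ih1 (by omega)] at e
    linarith [hw i]

lemma exp_form {d : ℕ} {u : ℕ → ℝ} {β : ℝ} (hβ : 2 < β)
    (hu : ∀ i, i + 2 ≤ d → u i + u (i + 2) = β * u (i + 1) + 0) :
    ∃ q μ h : ℝ, 1 < q ∧ ∀ i ≤ d, u i = μ * q ^ i + h / q ^ i := by
  obtain ⟨q, hq, hq'⟩ : ∃ q : ℝ, 1 < q ∧ q * q + 1 = β * q := by
    have h1 : 0 ≤ β ^ 2 - 4 := by nlinarith
    have h2 := sqrt_nonneg (β ^ 2 - 4)
    have h3 := mul_self_sqrt h1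
    exact ⟨(β + √(β ^ 2 - 4)) / 2, by linarith, by nlinarith⟩
  have q0 : q ≠ 0 := by positivity
  have q1 : q * q - 1 ≠ 0 := by nlinarith
  refine ⟨q, (q * u 1 - u 0) / (q * q - 1), q * (q * u 0 - u 1) / (q * q - 1), hq, fun i hi => ?_⟩
  refine closed (w := fun i => (q * u 1 - u 0) / (q * q - 1) * q ^ i +
    q * (q * u 0 - u 1) / (q * q - 1) / q ^ i) hu (fun i => ?_) ?_ ?_ i hi
  · obtain rfl : β = (q * q + 1) / q := by rw [eq_div_iff q0, hq']
    generalize (q * u 1 - u 0) / (q * q - 1) = μ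
    generalize q * (q * u 0 - u 1) / (q * q - 1) = h
    field_simp
    ring
  · simp only [pow_zero]
    generalize hx : q * q - 1 = x at q1 ⊢
    field_simp
    rw [← hx]
    ring
  · simp only [pow_one]
    generalize hx : q * q - 1 = x at q1 ⊢
    field_simp
    rw [← hx]
    ring

lemma fac {x g y : ℝ} (hx : x ≠ 0) (hg : 0 < g) (h : x = g * y) : 0 < x * y := by
  have hy : y ≠ 0 := fun h0 => hx (by rw [h, h0, mul_zero])
  rw [h, mul_assoc]
  exact mul_pos hg (mul_self_pos.mpr hy)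

lemma exists_sign (μ : ℝ) : ∃ ε : ℝ, (ε = 1 ∨ ε = -1) ∧ 0 ≤ ε * μ := by
  rcases le_total 0 μ with h | h
  · exact ⟨1, Or.inl rfl, by linarith⟩
  · exact ⟨-1, Or.inr rfl, by linarith⟩

lemma neg_case {d : ℕ} {t : ℕ → ℝ} {ε : ℝ} (hε : ε = 1 ∨ ε = -1) {F G : ℕ → ℝ}
    (hF : Monotone F) (hG : Monotone G)
    (h : ∀ i j, i < j → j ≤ d → (Even (i + j) → 0 < (t j - t i) * ε * (-1) ^ j * F (i + j)) ∧
      (Odd (i + j) → 0 < (t j - t i) * ε * (-1) ^ j * G (i + j)))
    (hs : (∀ s, 0 ≤ F s) ∨ ∀ s, 0 ≤ G s) :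
    (∃ ω φ : ℝ, Same d t fun i => cos (i * ω + φ)) ∨
      ∃ m ≤ d + 1, Same d t fun i => ε * (-1) ^ i * |2 * (i : ℝ) + 1 - 2 * m| := by
  have key : ∀ x y : ℝ, 0 < x * y → 0 ≤ y → 0 < x := fun x y h1 h2 =>
    (pos_iff_pos_of_mul_pos h1).mpr (lt_of_le_of_ne h2 fun h0 => by simp [← h0] at h1)
  rcases hs with hs | hs
  · exact Or.inl (pat2 hε hG fun i j hij hj =>
      ⟨fun hp => key _ _ ((h i j hij hj).1 hp) (hs _), (h i j hij hj).2⟩)
  · exact Or.inr (pat3 hF fun i j hij hj =>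
      ⟨fun hp => key _ _ ((h i j hij hj).2 hp) (hs _), (h i j hij hj).1⟩)

theorem classify {d : ℕ} {t : ℕ → ℝ} {β γ : ℝ}
    (ht : ∀ i, i + 2 ≤ d → t i + t (i + 2) = β * t (i + 1) + γ)
    (hne : ∀ i j, i < j → j ≤ d → t j - t i ≠ 0) :
    (∃ ω φ : ℝ, Same d t fun i => cos (i * ω + φ)) ∨
      ∃ ε : ℝ, (ε = 1 ∨ ε = -1) ∧
        ∃ m ≤ d + 1, Same d t fun i => ε * (-1) ^ i * |2 * (i : ℝ) + 1 - 2 * m| := by
  have sqj : ∀ j : ℕ, (-1 : ℝ) ^ j * (-1) ^ j = 1 := fun j => by rw [← mul_pow]; simp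
  rcases lt_trichotomy β 2 with h2 | h2 | h2
  · obtain ⟨η, hη⟩ : ∃ η, γ = (2 - β) * η := ⟨γ / (2 - β), by
      rw [mul_div_cancel₀ _ (by linarith)]⟩
    rcases lt_trichotomy β (-2) with h3 | h3 | h3
    · obtain ⟨q, μ, h, hq, hu⟩ := exp_form (d := d) (u := fun i => (-1) ^ i * (t i - η))
        (β := -β) (by linarith) (fun i hi => by
          simp only [pow_succ]
          linear_combination (-1) ^ i * ht i hi + (-1) ^ i * hη)
      obtain ⟨ε, hε, hμ⟩ := exists_sign μ
      have mono : ∀ c, Monotone fun s : ℕ => ε * μ * q ^ s + c := fun c a b hab => by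
        have := mul_le_mul_of_nonneg_left (pow_le_pow_right₀ hq.le hab) hμ
        simp only
        linarith
      have q0 : 0 < q := by linarith
      have hpos : ∀ s : ℕ, 0 ≤ ε * μ * q ^ s := fun s => by positivity
      refine (neg_case hε (mono (-(ε * h))) (mono (ε * h)) (fun i j hij hj => ?_) ?_).imp_right
        fun h => ⟨ε, hε, h⟩
      · have e1 : t i = η + (-1) ^ i * (μ * q ^ i + h / q ^ i) := by
          rw [← hu i (by omega)]
          linear_combination -(t i - η) * sqj i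
        have e2 : t j = η + (-1) ^ j * (μ * q ^ j + h / q ^ j) := by
          rw [← hu j hj]
          linear_combination -(t j - η) * sqj j
        have lt : q ^ i < q ^ j := pow_lt_pow_right₀ hq hij
        refine ⟨fun hp => ?_, fun hp => ?_⟩
        · have := fac (g := (q ^ j - q ^ i) / q ^ (i + j))
            (y := ε * (-1) ^ j * (ε * μ * q ^ (i + j) + -(ε * h))) (hne i j hij hj)
            (div_pos (by linarith) (by positivity)) (by
              rw [e1, e2, neg_one_pow_even hp, pow_add]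
              rcases hε with rfl | rfl <;> field_simp <;> ring)
          linarith
        · have := fac (g := (q ^ j + q ^ i) / q ^ (i + j))
            (y := ε * (-1) ^ j * (ε * μ * q ^ (i + j) + ε * h)) (hne i j hij hj)
            (by positivity) (by
              rw [e1, e2, neg_one_pow_odd hp, pow_add]
              rcases hε with rfl | rfl <;> field_simp <;> ring)
          linarith
      · rcases le_total 0 (ε * h) with h' | h'
        · exact Or.inr fun s => by linarith [hpos s]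
        · exact Or.inl fun s => by linarith [hpos s]
    · subst h3
      obtain ⟨μ, h, hw⟩ : ∃ μ h : ℝ, ∀ i ≤ d, t i = η + (-1) ^ i * (μ + h * i) :=
        ⟨t 0 - η, 2 * η - t 0 - t 1, closed ht (fun i => by
          simp only [pow_succ]
          push_cast
          linear_combination -hη) (by simp) (by simp; ring)⟩
      obtain ⟨ε, hε, hh⟩ := exists_sign h
      refine (neg_case hε (F := fun _ => ε * h) (G := fun s => ε * h * s + 2 * ε * μ)
        monotone_const (fun a b hab => ?_) (fun i j hij hj => ?_) (Or.inl fun _ => hh)).imp_right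
        fun h => ⟨ε, hε, h⟩
      · have := mul_le_mul_of_nonneg_left (Nat.cast_le (α := ℝ).mpr hab) hh
        simp only
        linarith
      · have lt : (i : ℝ) < j := by exact_mod_cast hij
        refine ⟨fun hp => ?_, fun hp => ?_⟩
        · have := fac (g := (j : ℝ) - i) (y := ε * (-1) ^ j * (ε * h)) (hne i j hij hj)
            (by linarith) (by
              rw [hw i (by omega), hw j hj, neg_one_pow_even hp]
              rcases hε with rfl | rfl <;> ring)
          linarith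
        · have := fac (g := 1) (y := ε * (-1) ^ j * (ε * h * ((i + j : ℕ) : ℝ) + 2 * ε * μ))
            (hne i j hij hj) one_pos (by
              rw [hw i (by omega), hw j hj, neg_one_pow_odd hp]
              push_cast
              rcases hε with rfl | rfl <;> ring)
          linarith
    · left
      obtain ⟨ω, hc, hs⟩ : ∃ ω, cos ω = β / 2 ∧ sin ω ≠ 0 := by
        have e := cos_arccos (x := β / 2) (by linarith) (by linarith)
        refine ⟨arccos (β / 2), e, fun h0 => ?_⟩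
        have := sin_sq_add_cos_sq (arccos (β / 2))
        rw [h0, e] at this
        nlinarith
      let z : ℂ := ⟨t 0 - η, ((t 0 - η) * cos ω - (t 1 - η)) / sin ω⟩
      have z1 : ‖z‖ * cos z.arg = t 0 - η := Complex.norm_mul_cos_arg z
      have z2 : ‖z‖ * sin z.arg = ((t 0 - η) * cos ω - (t 1 - η)) / sin ω :=
        Complex.norm_mul_sin_arg z
      rw [eq_div_iff hs] at z2
      have hw : ∀ i ≤ d, t i = η + ‖z‖ * cos (i * ω + z.arg) :=
        closed ht (fun i => by
          push_cast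
          have e1 := cos_add ((i + 1) * ω + z.arg) ω
          have e2 := cos_sub ((i + 1) * ω + z.arg) ω
          rw [show (i + 1) * ω + z.arg + ω = (i + 2) * ω + z.arg by ring] at e1
          rw [show (i + 1) * ω + z.arg - ω = i * ω + z.arg by ring] at e2
          rw [e1, e2, hc]
          linear_combination -hη) (by simp [z1]) (by
            simp only [Nat.cast_one, one_mul, cos_add]
            linear_combination z2 - cos ω * z1)
      refine ⟨ω, z.arg, fun i j hij hj => ?_⟩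
      have e := hne i j hij hj
      have e' : t j - t i = ‖z‖ * (cos (j * ω + z.arg) - cos (i * ω + z.arg)) := by
        rw [hw i (by omega), hw j hj]; ring
      exact fac e (lt_of_le_of_ne (norm_nonneg z) fun h0 => e (by rw [e', ← h0, zero_mul])) e'
  · subst h2
    left
    obtain ⟨μ, h, hw⟩ : ∃ μ h : ℝ, ∀ i ≤ d, t i = t 0 + μ * i + h * i ^ 2 :=
      ⟨t 1 - t 0 - γ / 2, γ / 2, closed ht (fun i => by push_cast; ring) (by simp) (by push_cast; ring)⟩
    obtain ⟨ε, hε, hh⟩ := exists_sign h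
    refine pat1 hε (F := fun s => ε * h * s + ε * μ) (fun a b hab => ?_) fun i j hij hj => ?_
    · have := mul_le_mul_of_nonneg_left (Nat.cast_le (α := ℝ).mpr hab) hh
      simp only
      linarith
    · have lt : (i : ℝ) < j := by exact_mod_cast hij
      have := fac (g := (j : ℝ) - i) (y := ε * (ε * h * ((i + j : ℕ) : ℝ) + ε * μ))
        (hne i j hij hj) (by linarith) (by
          rw [hw i (by omega), hw j hj]
          push_cast
          rcases hε with rfl | rfl <;> ring)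
      linarith
  · left
    obtain ⟨η, hη⟩ : ∃ η, γ = (2 - β) * η := ⟨γ / (2 - β), by
      rw [mul_div_cancel₀ _ (by linarith)]⟩
    obtain ⟨q, μ, h, hq, hu⟩ := exp_form (d := d) (u := fun i => t i - η) h2
      (fun i hi => by linear_combination ht i hi + hη)
    obtain ⟨ε, hε, hμ⟩ := exists_sign μ
    have q0 : 0 < q := by linarith
    refine pat1 hε (F := fun s => ε * μ * q ^ s - ε * h) (fun a b hab => ?_) fun i j hij hj => ?_
    · have := mul_le_mul_of_nonneg_left (pow_le_pow_right₀ hq.le hab) hμ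
      simp only
      linarith
    · have lt : q ^ i < q ^ j := pow_lt_pow_right₀ hq hij
      have e1 : t i = η + (μ * q ^ i + h / q ^ i) := by rw [← hu i (by omega)]; ring
      have e2 : t j = η + (μ * q ^ j + h / q ^ j) := by rw [← hu j hj]; ring
      have := fac (g := (q ^ j - q ^ i) / q ^ (i + j))
        (y := ε * (ε * μ * q ^ (i + j) - ε * h)) (hne i j hij hj)
        (div_pos (by linarith) (by positivity)) (by
          rw [e1, e2, pow_add]
          rcases hε with rfl | rfl <;> field_simp <;> ring)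
      linarith

variable {d : ℕ} {V : Type} [AddCommGroup V] [Module ℝ V]

lemma inj_of_anti {θ : Fin (d + 1) → ℝ} {σ : Equiv.Perm (Fin (d + 1))}
    (h : StrictAnti fun k => θ (σ k)) : Function.Injective θ := fun a b e =>
  σ.symm.injective (h.injective (by simpa using e))

lemma alt_real (hV : Module.finrank ℝ V = d + 1) {σ : Equiv.Perm (Fin (d + 1))} {m : ℕ} {ε : ℤ}
    (hε : ε = 1 ∨ ε = -1)
    (h : StrictAnti fun k => ε * (-1) ^ (σ k : ℕ) * |2 * (σ k : ℤ) + 1 - 2 * m|) :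
    ∃ (A A' : Module.End ℝ V) (E E' : Fin (d + 1) → Module.End ℝ V) (θ θ' : Fin (d + 1) → ℝ),
      IsLeonardSystem A A' E E' θ θ' ∧ StrictAnti fun k => θ (σ k) := by
  let θ : ℤ → ℝ := fun i => ε * (-1) ^ i * cosh (2 * i + 1 - 2 * m)
  have hanti : StrictAnti fun k => θ (σ k) := by
    intro a b hab
    have e : ε * (-1) ^ (σ b : ℕ) * |2 * (σ b : ℤ) + 1 - 2 * m| <
      ε * (-1) ^ (σ a : ℕ) * |2 * (σ a : ℤ) + 1 - 2 * m| := h hab
    have e' : (ε : ℝ) * (-1) ^ (σ b : ℕ) * |2 * ((σ b : ℕ) : ℝ) + 1 - 2 * m| <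
      ε * (-1) ^ (σ a : ℕ) * |2 * ((σ a : ℕ) : ℝ) + 1 - 2 * m| := by exact_mod_cast e
    simp only [θ, zpow_natCast, Int.cast_natCast]
    generalize 2 * ((σ b : ℕ) : ℝ) + 1 - 2 * m = x at e' ⊢
    generalize 2 * ((σ a : ℕ) : ℝ) + 1 - 2 * m = y at e' ⊢
    have p1 := cosh_pos x
    have p2 := cosh_pos y
    have p3 := abs_nonneg x
    have p4 := abs_nonneg y
    have p5 := (cosh_lt_cosh (x := x) (y := y)).mpr
    have p6 := (cosh_lt_cosh (x := y) (y := x)).mpr
    rcases neg_one_pow_eq_or ℝ (σ a : ℕ) with ha | ha <;>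
      rcases neg_one_pow_eq_or ℝ (σ b : ℕ) with hb | hb <;>
      rcases hε with rfl | rfl <;> rw [ha, hb] at e' ⊢ <;> push_cast at e' ⊢ <;>
      first
        | linarith
        | linarith [p5 (by linarith)]
        | linarith [p6 (by linarith)]
  let q : ℝ := -exp 2
  have q1 : q < -1 := by simp only [q]; linarith [add_one_lt_exp (x := 2) (by norm_num)]
  have q0 : q ≠ 0 := by linarith
  have hβ : q + q⁻¹ = -2 * cosh 2 := by
    simp only [q]
    rw [cosh_eq, exp_neg, inv_neg]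
    ring
  obtain ⟨A, A', E, E', hL⟩ := suff hV (θ := θ) (β := q + q⁻¹)
    (by rw [hβ]; linarith [cosh_pos 2])
    (fun i => by
      have e1 := cosh_add (2 * i + 1 - 2 * m) 2
      have e2 := cosh_sub (2 * i + 1 - 2 * m) 2
      simp only [θ]
      rw [hβ, zpow_add_one₀ (by norm_num), zpow_sub_one₀ (by norm_num)]
      push_cast
      rw [show 2 * ((i : ℝ) + 1) + 1 - 2 * m = 2 * i + 1 - 2 * m + 2 by ring,
        show 2 * ((i : ℝ) - 1) + 1 - 2 * m = 2 * i + 1 - 2 * m - 2 by ring, e1, e2]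
      ring)
    (inj_of_anti (θ := fun k : Fin (d + 1) => θ k) hanti)
    (h := fun i => q ^ i + q ^ ((d : ℤ) + 1 - i))
    (fun i => by
      rw [show (d : ℤ) + 1 - (i + 1) = d + 1 - i - 1 by ring,
        show (d : ℤ) + 1 - (i - 1) = d + 1 - i + 1 by ring, zpow_add_one₀ q0, zpow_add_one₀ q0,
        zpow_sub_one₀ q0, zpow_sub_one₀ q0]
      ring)
    (fun i => by rw [sub_sub_cancel, add_comm])
    (fun i h1 h2 e => by
      obtain ⟨r, hr⟩ : ∃ r, d + 1 = i + r := ⟨d + 1 - i, by omega⟩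
      have hr' : (d : ℤ) + 1 = i + r := by exact_mod_cast hr
      rw [hr', add_sub_cancel_left, sub_zero, zpow_add₀ q0, zpow_zero, zpow_natCast,
        zpow_natCast] at e
      have key : ∀ k : ℕ, 1 ≤ k → q ^ k - 1 ≠ 0 := by
        intro k hk e
        have e1 : |q| ^ k = 1 := by rw [← abs_pow, sub_eq_zero.mp e, abs_one]
        have e2 : 1 < |q| ^ k := one_lt_pow₀ (by rw [abs_of_neg (by linarith)]; linarith) (by omega)
        linarith
      exact mul_ne_zero (key i h1) (key r (by omega)) (by linear_combination -e))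
  exact ⟨A, A', E, E', _, _, hL, hanti⟩

lemma cos_real (hV : Module.finrank ℝ V = d + 1) {σ : Equiv.Perm (Fin (d + 1))} {ω φ : ℝ}
    (h : StrictAnti fun k => cos (σ k * ω + φ)) :
    ∃ (A A' : Module.End ℝ V) (E E' : Fin (d + 1) → Module.End ℝ V) (θ θ' : Fin (d + 1) → ℝ),
      IsLeonardSystem A A' E E' θ θ' ∧ StrictAnti fun k => θ (σ k) := by
  rcases Nat.eq_zero_or_pos d with rfl | hd
  · exact alt_real hV (m := 0) (Or.inl rfl) fun a b hab => absurd (Subsingleton.elim (α := Fin 1) a b) hab.ne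
  have hne := ne_of_anti (t := fun i => cos (i * ω + φ)) h
  have hs : ∀ k : ℕ, 1 ≤ k → k ≤ d → sin (k * ω / 2) ≠ 0 := by
    intro k h1 h2 e
    refine hne 0 k h1 h2 ?_
    rw [cos_sub_cos, show (k * ω + φ - (((0 : ℕ) : ℝ) * ω + φ)) / 2 = k * ω / 2 by
      push_cast; ring, e, mul_zero]
  have hrec : ∀ c : ℝ, ∀ i : ℤ, cos (((i + 1 : ℤ) : ℝ) * ω + c) =
      2 * cos ω * cos (i * ω + c) - cos (((i - 1 : ℤ) : ℝ) * ω + c) := by
    intro c i
    have e1 := cos_add (i * ω + c) ω
    have e2 := cos_sub (i * ω + c) ω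
    push_cast
    rw [show (i + 1) * ω + c = i * ω + c + ω by ring, show (i - 1) * ω + c = i * ω + c - ω by ring,
      e1, e2]
    ring
  have hanti : StrictAnti fun k => cos ((((σ k : ℕ) : ℤ) : ℝ) * ω + φ) := by
    simpa only [Int.cast_natCast] using h
  obtain ⟨A, A', E, E', hL⟩ := suff hV (θ := fun i => cos (i * ω + φ)) (β := 2 * cos ω)
    (fun e => by
      have e1 := hs 1 le_rfl hd
      have e2 := cos_two_mul (ω / 2)
      have e3 := sin_sq_add_cos_sq (ω / 2)
      rw [show 2 * (ω / 2) = ω by ring] at e2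
      rw [Nat.cast_one, one_mul] at e1
      exact e1 (pow_eq_zero_iff (n := 2) (by norm_num) |>.mp (by linarith)))
    (hrec φ) (inj_of_anti (θ := fun k : Fin (d + 1) => cos ((((k : ℕ) : ℤ) : ℝ) * ω + φ)) hanti)
    (h := fun i => cos (i * ω + -((d + 1) * ω / 2))) (hrec _)
    (fun i => by
      rw [← cos_neg]
      congr 1
      push_cast
      ring)
    (fun i h1 h2 e => by
      obtain ⟨r, hr⟩ : ∃ r, d + 1 = i + r := ⟨d + 1 - i, by omega⟩
      have hr' : (d : ℝ) + 1 = i + r := by exact_mod_cast hr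
      have e' := sub_eq_zero.mpr e
      push_cast at e'
      rw [cos_sub_cos, hr',
        show (i * ω + -((i + r) * ω / 2) + (0 * ω + -((i + r) * ω / 2))) / 2 = -(r * ω / 2) by ring,
        show (i * ω + -((i + r) * ω / 2) - (0 * ω + -((i + r) * ω / 2))) / 2 = i * ω / 2 by ring,
        sin_neg] at e'
      exact mul_ne_zero (hs r (by omega) (by omega)) (hs i h1 h2) (by linarith))
  exact ⟨A, A', E, E', _, _, hL, hanti⟩

theorem main (hV : Module.finrank ℝ V = d + 1) (σ : Equiv.Perm (Fin (d + 1))) :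
    (∃ (A A' : Module.End ℝ V) (E E' : Fin (d + 1) → Module.End ℝ V) (θ θ' : Fin (d + 1) → ℝ),
      IsLeonardSystem A A' E E' θ θ' ∧ StrictAnti fun k => θ (σ k)) ↔
    (∃ N a b : ℕ, N ≤ 16 * d + 8 ∧ a < N ∧ b < N ∧
      StrictMono fun k => distMultiple N (a * σ k + b)) ∨
    (∃ m : ℕ, m ≤ d + 1 ∧ ∃ ε : ℤ, (ε = 1 ∨ ε = -1) ∧
      StrictAnti fun k => ε * (-1) ^ (σ k : ℕ) * |2 * (σ k : ℤ) + 1 - 2 * m|) := by
  constructor
  · rintro ⟨A, A', E, E', θ, θ', hL, h⟩
    obtain ⟨t, β, γ, ht, hr⟩ := recurrent hV hL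
    have h' : StrictAnti fun k => t (σ k) := by simpa only [ht] using h
    rcases classify hr (ne_of_anti h') with ⟨ω, φ, hS⟩ | ⟨ε, hε, m, hm, hS⟩
    · exact Or.inl (rot_of_cos (hS.anti h'))
    · obtain ⟨e, he, rfl⟩ : ∃ e : ℤ, (e = 1 ∨ e = -1) ∧ ε = e := by
        rcases hε with rfl | rfl
        · exact ⟨1, Or.inl rfl, by simp⟩
        · exact ⟨-1, Or.inr rfl, by simp⟩
      refine Or.inr ⟨m, hm, e, he, fun a b hab => ?_⟩
      have : (e : ℝ) * (-1) ^ (σ b : ℕ) * |2 * ((σ b : ℕ) : ℝ) + 1 - 2 * m| <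
        e * (-1) ^ (σ a : ℕ) * |2 * ((σ a : ℕ) : ℝ) + 1 - 2 * m| := hS.anti h' hab
      show e * (-1) ^ (σ b : ℕ) * |2 * (σ b : ℤ) + 1 - 2 * m| <
        e * (-1) ^ (σ a : ℕ) * |2 * (σ a : ℤ) + 1 - 2 * m|
      exact_mod_cast this
  · rintro (⟨N, a, b, -, ha, -, h⟩ | ⟨m, -, ε, hε, h⟩)
    · refine cos_real hV (ω := 2 * π * a / N) (φ := 2 * π * b / N) fun k l hkl => ?_
      have := (dist_lt_iff (by omega) _ _).mp (h hkl)
      push_cast at this
      have e : ∀ i : ℕ, i * (2 * π * a / N) + 2 * π * b / N = 2 * π * (a * i + b) / N :=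
        fun i => by ring
      simp only [e]
      exact this
    · exact alt_real hV hε h

end Pool.Agent.MP_74fd1e_al

end
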